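import Pool.Agent.U602.NA.Prod

/-! # Products of subshifts of invertible automata in coprime bases, with coefficients

The class of automorphisms `β` of the coefficient algebra contains the automorphisms with a dense
span of eigenvectors, see `spectral_of_eigen`. -/

set_option autoImplicit false

namespace Pool.Agent.Results.MP_7a8f48_an.CoprimeBases

open Finset

/-- the sequences generated by an invertible automaton (with finite memory) in base `b`: each
transition is a permutation of the set of states -/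
def Invertible (b : ℕ) {a : ℕ} (s : ℕ → Fin a) : Prop :=
  ∃ (k d : ℕ) (δ : ℕ → Equiv.Perm (Fin d)) (p : ℕ → Fin d) (f : Fin d → Fin a),
    (∀ n, p n = δ (n % b ^ k) (p (n / b))) ∧ ∀ n, s n = f (p n)

/-- the bi-infinite sequences all of whose finite blocks occur in `s` -/
def X {a : ℕ} (s : ℕ → Fin a) : Set (ℤ → Fin a) :=
  {x | ∀ L : ℕ, ∃ c : ℕ, ∀ j : ℕ, j ≤ 2 * L → x ((j : ℤ) - L) = s (c + j)}

theorem X_succ {a : ℕ} {s : ℕ → Fin a} (x : X s) : (fun j => x.1 (j + 1)) ∈ X s :=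
  Pool.Agent.U602.MS.XZ_succ x.2

theorem X_pred {a : ℕ} {s : ℕ → Fin a} (x : X s) : (fun j => x.1 (j - 1)) ∈ X s :=
  Pool.Agent.U602.MS.XZ_pred x.2

instance {a : ℕ} (s : ℕ → Fin a) : CompactSpace (X s) :=
  inferInstanceAs (CompactSpace (Pool.Agent.U602.MS.XZ s))

theorem cont_succ {a : ℕ} (s : ℕ → Fin a) :
    Continuous fun x : X s => (⟨fun j => x.1 (j + 1), X_succ x⟩ : X s) :=
  (Pool.Agent.U602.MS.shift s).continuous_toFun

theorem cont_pred {a : ℕ} (s : ℕ → Fin a) :
    Continuous fun x : X s => (⟨fun j => x.1 (j - 1), X_pred x⟩ : X s) :=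
  (Pool.Agent.U602.MS.shift s).continuous_invFun

/-- the shift on `X s` -/
def shift {a : ℕ} (s : ℕ → Fin a) : X s ≃ₜ X s where
  toFun x := ⟨fun j => x.1 (j + 1), X_succ x⟩
  invFun x := ⟨fun j => x.1 (j - 1), X_pred x⟩
  left_inv x := Subtype.ext (funext fun j => by simp)
  right_inv x := Subtype.ext (funext fun j => by simp)
  continuous_toFun := cont_succ s
  continuous_invFun := cont_pred s

/-- the product of the spaces `X (s i)` -/
abbrev Z {ι : Type} {a : ι → ℕ} (s : ∀ i, ℕ → Fin (a i)) : Type := ∀ i, X (s i)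

/-- the product of the shifts -/
def T {ι : Type} {a : ι → ℕ} (s : ∀ i, ℕ → Fin (a i)) : Z s ≃ₜ Z s :=
  Homeomorph.piCongrRight fun i => shift (s i)

section

variable {B Γ : Type} [NonUnitalCStarAlgebra B]

/-- the automorphism `u ↦ β ∘ u ∘ T` of the C*-algebra `C(Y, B)` -/
noncomputable def conj {Y : Type} [TopologicalSpace Y] [CompactSpace Y] (T : Y ≃ₜ Y)
    (β : B ≃⋆ₐ[ℂ] B) : C(Y, B) ≃⋆ₐ[ℂ] C(Y, B) where
  toFun u := ⟨fun z => β (u (T z)),
    (StarAlgEquiv.isometry β).continuous.comp (u.continuous.comp T.continuous)⟩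
  invFun u := ⟨fun z => β.symm (u (T.symm z)),
    (StarAlgEquiv.isometry β.symm).continuous.comp (u.continuous.comp T.symm.continuous)⟩
  left_inv u := by ext z; simp
  right_inv u := by ext z; simp
  map_mul' u v := by ext z; simp
  map_add' u v := by ext z; simp
  map_star' u := by ext z; simp [map_star]
  map_smul' x u := by ext z; simp

/-- there is a dense set of `v` in `B` such that with a constant depending on `v` only the norm of
the sum of the `c n • β^n v` is bounded by the maximum of the polynomial with the coefficients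
`c n` on the unit circle, for all `β` in the family -/
def Spectral (β : Γ → B ≃⋆ₐ[ℂ] B) : Prop :=
  Dense {v : B | ∃ C : ℝ, ∀ (γ : Γ) (N : ℕ) (c : ℕ → ℂ) (K : ℝ),
    (∀ z : ℂ, ‖z‖ = 1 → ‖∑ n ∈ Ioc 0 N, c n * z ^ n‖ ≤ K) →
      ‖∑ n ∈ Ioc 0 N, c n • (β γ)^[n] v‖ ≤ C * K}

/-- the averages of `μ(n) α^n u` tend to `0` in norm for all `u`, uniformly in the family -/
def Disjoint (α : Γ → B ≃⋆ₐ[ℂ] B) : Prop :=
  ∀ (u : B) (ε : ℝ), 0 < ε → ∃ N₀ : ℕ, ∀ N, N₀ ≤ N → ∀ γ : Γ,
    ‖(1 / (N : ℂ)) • ∑ n ∈ Ioc 0 N, ((ArithmeticFunction.moebius n : ℤ) : ℂ) • (α γ)^[n] u‖ ≤ ε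

/-- not used in the theorem: families with a dense span of common eigenvectors -/
theorem spectral_of_eigen (β : Γ → B ≃⋆ₐ[ℂ] B)
    (h : Dense (Submodule.span ℂ {v : B | ∀ γ, ∃ z : ℂ, β γ v = z • v} : Set B)) : Spectral β :=
  h.mono fun _ hv => Pool.Agent.U602.NA.SV_span hv

theorem iter_conj {ι : Type} {a : ι → ℕ} (s : ∀ i, ℕ → Fin (a i)) (β : B ≃⋆ₐ[ℂ] B) (n : ℕ)
    (u : C(Z s, B)) (z : Z s) :
    ((conj (T s) β)^[n] u) z = β^[n] (u (fun i => (shift (s i))^[n] (z i))) := by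
  induction n generalizing z with
  | zero => simp
  | succ n ih =>
    rw [Function.iterate_succ_apply']
    show β (((conj (T s) β)^[n] u) (T s z)) = _
    rw [ih, Function.iterate_succ_apply']
    rfl

end

theorem result {ι B Γ : Type} [NonUnitalCStarAlgebra B] (b a : ι → ℕ) (hb : ∀ i, 2 ≤ b i)
    (hcop : ∀ i j, i ≠ j → (b i).Coprime (b j)) (s : ∀ i, ℕ → Fin (a i))
    (hs : ∀ i, Invertible (b i) (s i)) (β : Γ → B ≃⋆ₐ[ℂ] B) (hβ : Spectral β) :
    Disjoint fun γ => conj (T s) (β γ) := by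
  classical
  intro u ε hε
  have hWP : ∀ t : Finset ι, Pool.Agent.U602.NA.WP (fun i : t => Fin (a i)) (fun i => s i) :=
    fun t => Pool.Agent.U602.NA.wp_invertible (fun i : t => a i) (fun i => b i) (fun i => hb i)
      (fun i j hij => hcop i j (fun h => hij (Subtype.ext h))) (fun i => s i) (fun i => hs i)
  obtain ⟨N₀, h0⟩ := Pool.Agent.U602.NA.product_inf s hWP β hβ u ε hε
  refine ⟨max N₀ 1, fun N hN γ => ?_⟩
  have hN1 : 1 ≤ N := (le_max_right _ _).trans hN
  have hNpos : (0 : ℝ) < N := by exact_mod_cast hN1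
  rw [ContinuousMap.norm_le _ hε.le]
  intro z
  have h1 := h0 N ((le_max_left _ _).trans hN) γ z
  rw [ContinuousMap.smul_apply, ContinuousMap.sum_apply]
  have h2 : ∑ n ∈ Ioc 0 N,
      (((ArithmeticFunction.moebius n : ℤ) : ℂ) • (conj (T s) (β γ))^[n] u) z =
      ∑ n ∈ Ioc 0 N, Pool.Agent.U602.MS.mob n •
        (β γ)^[n] (u (fun i => (Pool.Agent.U602.MS.shift (s i))^[n] (z i))) := by
    refine sum_congr rfl fun n _ => ?_
    rw [ContinuousMap.smul_apply, iter_conj]
    rfl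
  rw [h2, norm_smul, norm_div, norm_one, Complex.norm_natCast, one_div, inv_mul_le_iff₀ hNpos,
    mul_comm]
  exact h1

end Pool.Agent.Results.MP_7a8f48_an.CoprimeBases
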