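import Pool.Agent.U307.NIL.Main

/-!
# Möbius disjointness of quasi-unipotent endomorphisms of C*-algebras of nilpotent groups

The main steps are in `Pool.Agent.U307.NIL` and in the files of the project NIL imported there.
-/

set_option autoImplicit false

open Filter Topology
open scoped InnerProductSpace

namespace Pool.Agent.Results.MP_7a8f48_an.NilpotentGroups

/-- the Möbius function with complex values -/
noncomputable def mu (n : ℕ) : ℂ := ((ArithmeticFunction.moebius n : ℤ) : ℂ)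

section defs

variable {W : Type} [CStarAlgebra W]

/-- `w` is an eigenvector of `γ`, with an eigenvalue of modulus one -/
def Eigenvector (γ : W →⋆ₐ[ℂ] W) (w : W) : Prop := ∃ l : ℂ, ‖l‖ = 1 ∧ γ w = l • w

/-- the map `h ↦ h* γᵐ(h)` -/
def diff (γ : W →⋆ₐ[ℂ] W) (m : ℕ) (h : W) : W := star h * (γ^[m]) h

/-- the group of unitaries generated by the orbit `γⁿ(h)`, `n ≥ 0`, of the unitary `h` -/
def orbitGroup (γ : W →⋆ₐ[ℂ] W) (h : W) : Subgroup (unitary W) :=
  Subgroup.closure {u | ∃ n : ℕ, (u : W) = (γ^[n]) h}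

/-- The unitary `g` is nil-unipotent for `γ`: for some `m > 0` and some `k` the `k`-th iterate of the
map `D : h ↦ h* γᵐ(h)` maps `g` to `1`, and the unitaries `γⁿ(D g)`, `n ≥ 0`, generate a nilpotent
group (of any class). -/
def NilUnipotent (γ : W →⋆ₐ[ℂ] W) (g : W) : Prop :=
  g ∈ unitary W ∧ ∃ m : ℕ, 0 < m ∧ (∃ k : ℕ, ((diff γ m)^[k]) g = 1) ∧
    Group.IsNilpotent (orbitGroup γ (diff γ m g))

/-- the products `v * y * w` with `y` in `S` and eigenvectors `v`, `w` of `γ` span a dense subspace -/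
def Generates (γ : W →⋆ₐ[ℂ] W) (S : Set W) : Prop :=
  (Submodule.span ℂ {x : W | ∃ y ∈ S, ∃ v w, Eigenvector γ v ∧ Eigenvector γ w ∧
    x = v * y * w}).topologicalClosure = ⊤

/-- Möbius disjointness of the orbits, in the strong operator topology of all representations -/
def StronglyDisjoint (γ : W →⋆ₐ[ℂ] W) : Prop :=
  ∀ (x : W) (K : Type) [NormedAddCommGroup K] [InnerProductSpace ℂ K] [CompleteSpace K]
    (π : W →⋆ₐ[ℂ] (K →L[ℂ] K)) (ξ : K),
    Tendsto (fun N : ℕ => (1 / (N : ℂ)) • ∑ n ∈ Finset.Icc 1 N, mu n • π ((γ^[n]) x) ξ) atTop (𝓝 0)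

/-- Möbius disjointness for the products of the values of any number of bounded functionals along
any orbits; for `r = 1` this is the Möbius disjointness of the problem, for all bounded functionals -/
def FunctionalsDisjoint (γ : W →⋆ₐ[ℂ] W) : Prop :=
  ∀ (r : ℕ) (ρ : Fin r → (W →L[ℂ] ℂ)) (x : Fin r → W),
    Tendsto (fun N : ℕ => (1 / (N : ℂ)) * ∑ n ∈ Finset.Icc 1 N,
      mu n * ∏ i, ρ i ((γ^[n]) (x i))) atTop (𝓝 0)

/-- Möbius disjointness, with all continuous functions `f` and all points, of all the compact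
systems of functionals: a self-map `T` of a compact space `X` whose points are separated by the
values `ρ i x a` of bounded functionals `ρ i x` on `W`, `i ∈ I`, which are continuous in `x`, with
`ρ i (T x) = ρ i x ∘ γ`. For example `X` is the state space of `W` with the weak* topology and
`T ρ = ρ ∘ γ`. -/
def SystemsDisjoint (γ : W →⋆ₐ[ℂ] W) : Prop :=
  ∀ (X : Type) [TopologicalSpace X] [CompactSpace X] (T : X → X) (I : Type)
    (ρ : I → X → (W →L[ℂ] ℂ)), (∀ i a, Continuous fun x => ρ i x a) →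
    (∀ i x a, ρ i (T x) a = ρ i x (γ a)) → (∀ x y, x ≠ y → ∃ i a, ρ i x a ≠ ρ i y a) →
    ∀ (f : C(X, ℂ)) (x : X), Tendsto (fun N : ℕ => (1 / (N : ℂ)) *
      ∑ n ∈ Finset.Icc 1 N, mu n * f ((T^[n]) x)) atTop (𝓝 0)

/-- the three forms of Möbius disjointness -/
def Disjoint3 (γ : W →⋆ₐ[ℂ] W) : Prop :=
  StronglyDisjoint γ ∧ FunctionalsDisjoint γ ∧ SystemsDisjoint γ

/-- `γ` and all its restrictions to invariant unital C*-subalgebras (given by injective equivariant
homomorphisms `κ`) are Möbius disjoint in the three forms -/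
def HereditarilyDisjoint (γ : W →⋆ₐ[ℂ] W) : Prop :=
  ∀ (V : Type) [CStarAlgebra V] (δ : V →⋆ₐ[ℂ] V) (κ : V →⋆ₐ[ℂ] W), Function.Injective κ →
    (∀ v, κ (δ v) = γ (κ v)) → Disjoint3 δ

end defs

section groups

/-- the difference map of `σᵐ` -/
def gdiff {G : Type} [Group G] (σ : G →* G) (m : ℕ) (g : G) : G := g⁻¹ * (σ^[m]) g

/-- the endomorphism `σ` is locally quasi-unipotent: for each `g` some iterate of the map
`h ↦ h⁻¹ σᵐ(h)`, for some `m > 0`, maps `g` to `1` -/
def QuasiUnipotent {G : Type} [Group G] (σ : G →* G) : Prop :=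
  ∀ g : G, ∃ m : ℕ, 0 < m ∧ ∃ k : ℕ, ((gdiff σ m)^[k]) g = 1

/-- every finitely generated subgroup is nilpotent -/
def LocallyNilpotent (G : Type) [Group G] : Prop :=
  ∀ S : Finset G, Group.IsNilpotent (Subgroup.closure (S : Set G))

end groups

/-- (A) unitaries with nilpotent orbit groups -/
def PartA : Prop :=
  ∀ (W : Type) [CStarAlgebra W] (γ : W →⋆ₐ[ℂ] W), Generates γ {g | NilUnipotent γ g} → HereditarilyDisjoint γ

/-- (B) twisted C*-algebras of locally nilpotent groups -/
def PartB : Prop :=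
  ∀ (W G : Type) [CStarAlgebra W] [Group G], LocallyNilpotent G → ∀ (σ : G →* G), QuasiUnipotent σ →
    ∀ u : G → W, (∀ g, u g ∈ unitary W) → (∀ g h, ∃ c : ℂ, ‖c‖ = 1 ∧ u (g * h) = c • (u g * u h)) →
    (Submodule.span ℂ (Set.range u)).topologicalClosure = ⊤ →
    ∀ γ : W →⋆ₐ[ℂ] W, (∀ g, ∃ c : ℂ, ‖c‖ = 1 ∧ γ (u g) = c • u (σ g)) → HereditarilyDisjoint γ

open Pool.Agent.Helper188.NCM Pool.Agent.TH261.AB Pool.Agent.TH261.NP Pool.Agent.U307.NIL

section proofs

variable {U : Type} [CStarAlgebra U]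

theorem Dg_coe (α : U →⋆ₐ[ℂ] U) (m : ℕ) (g : unitary U) :
    ((Dg (sg α) m g : unitary U) : U) = diff α m (g : U) := by
  rw [Dg, diff, Submonoid.coe_mul, sg_iter]
  rfl

theorem Dg_iter (α : U →⋆ₐ[ℂ] U) (m k : ℕ) (g : unitary U) :
    (((Dg (sg α) m)^[k] g : unitary U) : U) = ((diff α m)^[k]) (g : U) := by
  induction k generalizing g with
  | zero => rfl
  | succ k ih => rw [Function.iterate_succ_apply, Function.iterate_succ_apply, ih, Dg_coe]

theorem orbitGroup_eq (α : U →⋆ₐ[ℂ] U) (h : unitary U) : orbitGroup α (h : U) = OG α h := by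
  rw [orbitGroup, OG]
  congr 1
  ext u
  constructor
  · rintro ⟨n, hn⟩
    exact ⟨n, Subtype.ext (by rw [sg_iter]; exact hn.symm)⟩
  · rintro ⟨n, rfl⟩
    exact ⟨n, sg_iter α n h⟩

theorem qn_of {α : U →⋆ₐ[ℂ] U} {g : unitary U} (h : NilUnipotent α (g : U)) : QN α g := by
  obtain ⟨-, m, hm, ⟨k, hk⟩, hc⟩ := h
  refine ⟨m, hm, ⟨k, Subtype.ext ?_⟩, ?_⟩
  · rw [Dg_iter, hk]; rfl
  · rw [← Dg_coe, orbitGroup_eq] at hc
    exact hc

theorem mu_eq (n : ℕ) : mu n = mob n := rfl

theorem sum_eq {K : Type*} [NormedAddCommGroup K] [NormedSpace ℂ K] {a : ℕ → K}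
    (h : Tendsto (vav fun n => mob n • a n) atTop (𝓝 0)) :
    Tendsto (fun N : ℕ => (1 / (N : ℂ)) • ∑ n ∈ Finset.Icc 1 N, mu n • a n) atTop (𝓝 0) :=
  vav_Icc (a := fun n => mob n • a n) (by simp [mob]) h

theorem ext_functional {V : Type} [CStarAlgebra V] (κ : V →⋆ₐ[ℂ] U) (hκ : Function.Injective κ)
    (φ : V →L[ℂ] ℂ) : ∃ ψ : U →L[ℂ] ℂ, ∀ x, ψ (κ x) = φ x := by
  have hiso : ∀ x : V, ‖κ x‖ = ‖x‖ := fun x => NonUnitalStarAlgHom.norm_map κ hκ x
  let κl : V →ₗᵢ[ℂ] U := ⟨κ.toAlgHom.toLinearMap, hiso⟩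
  let e := κl.equivRange
  let p : Submodule ℂ U := LinearMap.range κl.toLinearMap
  obtain ⟨ψ, hψ, -⟩ := exists_extension_norm_eq p (φ.comp
    (e.symm.toContinuousLinearEquiv : p →L[ℂ] V))
  refine ⟨ψ, fun x => ?_⟩
  have := hψ (e x)
  have h2 : ((e x : p) : U) = κ x := rfl
  rw [h2] at this
  rw [this]
  simp

/-- products of functionals, lists -/
def Multi (γ : U →⋆ₐ[ℂ] U) : Prop := ∀ L : List ((U →L[ℂ] ℂ) × U),
  Tendsto (vav fun n => mob n * (L.map fun p => p.1 ((γ^[n]) p.2)).prod) atTop (𝓝 0)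

theorem multi_embed {V : Type} [CStarAlgebra V] {β : U →⋆ₐ[ℂ] U} (h : Multi β) (δ : V →⋆ₐ[ℂ] V)
    (κ : V →⋆ₐ[ℂ] U) (hκ : Function.Injective κ) (hδ : ∀ v, κ (δ v) = β (κ v)) : Multi δ := by
  have hn : ∀ (n : ℕ) v, κ ((δ^[n]) v) = (β^[n]) (κ v) := by
    intro n
    induction n with
    | zero => intro v; rfl
    | succ n ih =>
      intro v
      rw [Function.iterate_succ_apply', Function.iterate_succ_apply', hδ, ih]
  choose ψ hψ using ext_functional κ hκ
  intro L
  refine (h (L.map fun p => (ψ p.1, κ p.2))).congr fun N => ?_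
  rw [vav, vav]
  congr 1
  refine Finset.sum_congr rfl fun n _ => ?_
  rw [List.map_map]
  congr 2
  refine List.map_congr_left fun p _ => ?_
  simp only [Function.comp_apply]
  rw [← hn, hψ]

theorem disjoint3_of {γ : U →⋆ₐ[ℂ] U} (h1 : ∀ x, Good γ x) (h2 : Multi γ) : Disjoint3 γ := by
  refine ⟨fun x K _ _ _ π ξ => sum_eq (h1 x K π ξ), fun r ρ x => ?_,
    fun X _ _ T I ρ hc hρ hs f x => ?_⟩
  · have h3 := sum_eq (K := ℂ) (h2 (List.ofFn fun i => (ρ i, x i)))
    refine h3.congr fun N => ?_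
    rw [smul_eq_mul]
    congr 1
    refine Finset.sum_congr rfl fun n _ => ?_
    rw [smul_eq_mul, List.map_ofFn, List.prod_ofFn]
    rfl
  · exact sum_eq (K := ℂ) (top_of_multi γ h2 T ρ hc hρ hs f x)

theorem partA : PartA := by
  intro U _ α h V _ δ κ hκ hδ
  have hd : (Submodule.span ℂ (Prods α ((fun g : unitary U => (g : U)) '' {g | QN α g}))).topologicalClosure = ⊤ := by
    have h2 : Submodule.span ℂ {x : U | ∃ y ∈ {g | NilUnipotent α g}, ∃ v w, Eigenvector α v ∧
        Eigenvector α w ∧ x = v * y * w} ≤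
        Submodule.span ℂ (Prods α ((fun g : unitary U => (g : U)) '' {g | QN α g})) := by
      refine Submodule.span_mono ?_
      rintro x ⟨y, hy, v, w, hv, hw, rfl⟩
      exact ⟨y, ⟨⟨y, hy.1⟩, qn_of hy, rfl⟩, v, w, hv, hw, rfl⟩
    have h3 := Submodule.topologicalClosure_mono h2
    have h4 : (Submodule.span ℂ {x : U | ∃ y ∈ {g | NilUnipotent α g}, ∃ v w, Eigenvector α v ∧
        Eigenvector α w ∧ x = v * y * w}).topologicalClosure = ⊤ := h
    rw [h4, top_le_iff] at h3
    exact h3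
  exact disjoint3_of (Good.embed (good_all' mobAll hd) δ κ hκ hδ) (multi_embed (multi' mobAll dil hd) δ κ hκ hδ)

/-! ### projective representations of groups -/

/-- scalars of modulus one -/
def Sc (x y : U) : Prop := ∃ c : ℂ, ‖c‖ = 1 ∧ x = c • y

theorem Sc.symm {x y : U} (h : Sc x y) : Sc y x := by
  obtain ⟨c, hc, rfl⟩ := h
  refine ⟨c⁻¹, by rw [norm_inv, hc, inv_one], ?_⟩
  rw [smul_smul, inv_mul_cancel₀ (by rintro rfl; simp at hc), one_smul]

theorem Sc.trans {x y z : U} (h : Sc x y) (h' : Sc y z) : Sc x z := by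
  obtain ⟨c, hc, rfl⟩ := h
  obtain ⟨d, hd, rfl⟩ := h'
  exact ⟨c * d, by rw [norm_mul, hc, hd, one_mul], by rw [smul_smul]⟩

theorem Sc.mul {x y x' y' : U} (h : Sc x y) (h' : Sc x' y') : Sc (x * x') (y * y') := by
  obtain ⟨c, hc, rfl⟩ := h
  obtain ⟨d, hd, rfl⟩ := h'
  exact ⟨c * d, by rw [norm_mul, hc, hd, one_mul], by rw [smul_mul_smul_comm]⟩

theorem Sc.adj {x y : U} (h : Sc x y) : Sc (star x) (star y) := by
  obtain ⟨c, hc, rfl⟩ := h
  exact ⟨star c, by rw [norm_star, hc], by rw [star_smul]⟩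

theorem Sc.refl (x : U) : Sc x x := ⟨1, norm_one, by rw [one_smul]⟩

variable {G : Type} [Group G]

/-- the data of a projective representation -/
structure Proj (u : G → U) (σ : G →* G) (α : U →⋆ₐ[ℂ] U) : Prop where
  unit : ∀ g, u g ∈ unitary U
  mul : ∀ g h, Sc (u (g * h)) (u g * u h)
  cov : ∀ g, Sc (α (u g)) (u (σ g))

variable {u : G → U} {σ : G →* G} {α : U →⋆ₐ[ℂ] U}

theorem Proj.one (h : Proj u σ α) : Sc (u 1) 1 := by
  have h1 := h.mul 1 1
  rw [mul_one] at h1
  have h2 := h1.mul (Sc.refl (Star.star (u 1)))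
  rw [mul_assoc, Unitary.mul_star_self_of_mem (h.unit 1), mul_one] at h2
  exact h2.symm

theorem Proj.inv (h : Proj u σ α) (g : G) : Sc (u g⁻¹) (star (u g)) := by
  have h1 := h.mul g⁻¹ g
  rw [inv_mul_cancel] at h1
  have h2 := (h1.symm.trans h.one).mul (Sc.refl (Star.star (u g)))
  rw [mul_assoc, Unitary.mul_star_self_of_mem (h.unit g), mul_one, one_mul] at h2
  exact h2

theorem Sc.map {x y : U} (h : Sc x y) : Sc (α x) (α y) := by
  obtain ⟨c, hc, rfl⟩ := h
  exact ⟨c, hc, by rw [map_smul]⟩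

theorem Proj.iter (h : Proj u σ α) (n : ℕ) (g : G) : Sc ((α^[n]) (u g)) (u ((σ^[n]) g)) := by
  induction n with
  | zero => exact Sc.refl _
  | succ n ih =>
    rw [Function.iterate_succ_apply', Function.iterate_succ_apply']
    exact (Sc.map ih).trans (h.cov _)

theorem Sc.iter {x y : U} (h : Sc x y) (n : ℕ) : Sc ((α^[n]) x) ((α^[n]) y) := by
  induction n with
  | zero => exact h
  | succ n ih =>
    rw [Function.iterate_succ_apply', Function.iterate_succ_apply']
    exact Sc.map ih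

theorem Proj.diff1 (h : Proj u σ α) (m : ℕ) {x : U} {g : G} (hx : Sc x (u g)) :
    Sc (diff α m x) (u (gdiff σ m g)) := by
  unfold diff gdiff
  refine (Sc.mul hx.adj ((Sc.iter hx m).trans (h.iter m g))).trans ?_
  exact ((h.mul _ _).trans ((h.inv g).mul (Sc.refl _))).symm

theorem Proj.diffk (h : Proj u σ α) (m k : ℕ) (g : G) :
    Sc (((diff α m)^[k]) (u g)) (u (((gdiff σ m)^[k]) g)) := by
  induction k with
  | zero => exact Sc.refl _
  | succ k ih =>
    rw [Function.iterate_succ_apply', Function.iterate_succ_apply']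
    exact h.diff1 m ih

theorem Sc.diff_one {x : U} (h : Sc x 1) (m : ℕ) : diff α m x = 1 := by
  obtain ⟨c, hc, rfl⟩ := h
  have hc' : star c * c = 1 := by
    rw [Complex.star_def, mul_comm, Complex.mul_conj, Complex.normSq_eq_norm_sq, hc]
    simp
  have h1 : (α^[m]) (1 : U) = 1 := by
    induction m with
    | zero => rfl
    | succ m ih => rw [Function.iterate_succ_apply', ih, map_one]
  rw [diff, Pool.Agent.Helper188.NCM.iter_smul, h1, star_smul, smul_mul_smul_comm, hc', one_smul, star_one, one_mul]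

/-- the homomorphism to the unitaries modulo central unitaries -/
noncomputable def qhom (h : Proj u σ α) : G →* (unitary U ⧸ Zs U) :=
  MonoidHom.mk' (fun g => ((⟨u g, h.unit g⟩ : unitary U) : unitary U ⧸ Zs U)) (by
    intro g g'
    obtain ⟨c, hc, h1⟩ := h.mul g g'
    rw [← QuotientGroup.mk_mul]
    refine Eq.symm (QuotientGroup.eq.2 ?_)
    intro a
    have e : (((⟨u g, h.unit g⟩ * ⟨u g', h.unit g'⟩ : unitary U)⁻¹ * ⟨u (g * g'), h.unit _⟩ : unitary U) : U) =
        c • 1 := by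
      show star (u g * u g') * u (g * g') = c • 1
      rw [h1, mul_smul_comm, Unitary.star_mul_self_of_mem (mul_mem (h.unit g) (h.unit g'))]
    rw [e, smul_mul_assoc, one_mul, mul_smul_comm, mul_one])

/-- scalar multiples have the same image -/
theorem mk_eq_of_sc {x y : unitary U} (h : Sc (x : U) (y : U)) :
    (x : unitary U ⧸ Zs U) = (y : unitary U ⧸ Zs U) := by
  refine Eq.symm (QuotientGroup.eq.2 ?_)
  intro a
  obtain ⟨c, hc, h1⟩ := h
  have e : ((y⁻¹ * x : unitary U) : U) = c • 1 := by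
    show star (y : U) * (x : U) = c • 1
    rw [h1, mul_smul_comm, Unitary.star_mul_self_of_mem y.2]
  rw [e, smul_mul_assoc, one_mul, mul_smul_comm, mul_one]

/-- the subgroup generated by an orbit of a locally unipotent element is finitely generated -/
theorem orbit_fg {m : ℕ} (hm : 0 < m) (g : G) {k : ℕ} (hk : ((gdiff σ m)^[k]) g = 1) :
    ∃ S : Finset G, ∀ n, (σ^[n]) g ∈ Subgroup.closure (S : Set G) := by
  classical
  refine ⟨(Finset.range m ×ˢ Finset.range k).image fun p => (σ^[p.1]) (((gdiff σ m)^[p.2]) g), ?_⟩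
  set S := (Finset.range m ×ˢ Finset.range k).image fun p => (σ^[p.1]) (((gdiff σ m)^[p.2]) g) with hS
  have key : ∀ n r j : ℕ, r < m → (σ^[m * n + r]) (((gdiff σ m)^[j]) g) ∈ Subgroup.closure (S : Set G) := by
    intro n
    induction n with
    | zero =>
      intro r j hr
      rw [mul_zero, zero_add]
      rcases lt_or_ge j k with hj | hj
      · refine Subgroup.subset_closure ?_
        rw [hS, Finset.coe_image]
        exact ⟨(r, j), by simp [hr, hj], rfl⟩
      · have h1 : ((gdiff σ m)^[j]) g = 1 := by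
          obtain ⟨d, rfl⟩ := Nat.exists_eq_add_of_le hj
          rw [add_comm, Function.iterate_add_apply, hk]
          clear hj
          induction d with
          | zero => rfl
          | succ d ih => rw [Function.iterate_succ_apply', ih, gdiff, sg_one, inv_one, one_mul]
        rw [h1, sg_one]
        exact Subgroup.one_mem _
    | succ n ih =>
      intro r j hr
      have h1 : (σ^[m]) (((gdiff σ m)^[j]) g) = ((gdiff σ m)^[j]) g * ((gdiff σ m)^[j + 1]) g := by
        rw [Function.iterate_succ_apply', gdiff, mul_inv_cancel_left]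
      rw [show m * (n + 1) + r = (m * n + r) + m by ring, Function.iterate_add_apply _ (m * n + r) m, h1, sg_mul]
      exact Subgroup.mul_mem _ (ih r j hr) (ih r (j + 1) hr)
  intro n
  have h1 := key (n / m) (n % m) 0 (Nat.mod_lt _ hm)
  rw [Nat.div_add_mod] at h1
  exact h1

theorem nil_of_proj (h : Proj u σ α) (hG : LocallyNilpotent G) (hσ : QuasiUnipotent σ) (g : G) :
    NilUnipotent α (u g) := by
  obtain ⟨m, hm, k, hk⟩ := hσ g
  refine ⟨h.unit g, m, hm, ⟨k + 1, ?_⟩, ?_⟩
  · rw [Function.iterate_succ_apply']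
    have h1 := h.diffk m k g
    rw [hk] at h1
    exact (h1.trans h.one).diff_one m
  · have hk' : ((gdiff σ m)^[k]) (gdiff σ m g) = 1 := by
      rw [← Function.iterate_succ_apply, Function.iterate_succ_apply', hk, gdiff, sg_one, inv_one, one_mul]
    obtain ⟨S, hS⟩ := orbit_fg hm (gdiff σ m g) hk'
    have h1 : ∀ n, Sc ((α^[n]) (diff α m (u g))) (u ((σ^[n]) (gdiff σ m g))) := fun n =>
      (Sc.iter (h.diff1 m (Sc.refl (u g))) n).trans (h.iter n _)
    have hN := hG S
    set N : Subgroup G := Subgroup.closure (S : Set G) with hNdef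
    -- the image of `N` modulo the central unitaries
    set R : Subgroup (unitary U ⧸ Zs U) := ((qhom h).comp N.subtype).range with hR
    have hRn : Group.IsNilpotent R :=
      Group.nilpotent_of_surjective ((qhom h).comp N.subtype).rangeRestrict
        (MonoidHom.rangeRestrict_surjective _)
    set O := orbitGroup α (diff α m (u g)) with hO
    have hOR : O ≤ R.comap (QuotientGroup.mk' (Zs U)) := by
      rw [hO, orbitGroup, Subgroup.closure_le]
      rintro x ⟨n, hn⟩
      show (QuotientGroup.mk' (Zs U)) x ∈ R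
      have h2 : Sc (x : U) ((⟨u ((σ^[n]) (gdiff σ m g)), h.unit _⟩ : unitary U) : U) := by
        rw [hn]
        exact h1 n
      refine ⟨⟨_, hS n⟩, ?_⟩
      exact (mk_eq_of_sc h2).symm
    have hZ : ∀ x : O, (QuotientGroup.mk' (Zs U)) (x : unitary U) ∈ R := fun x => hOR x.2
    let f : O →* R := MonoidHom.codRestrict ((QuotientGroup.mk' (Zs U)).comp O.subtype) R hZ
    refine Subgroup.isNilpotent_of_ker_le_center f ?_
    intro x hx
    have h3 : ((x : unitary U) : unitary U ⧸ Zs U) = 1 := congrArg Subtype.val hx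
    have h4 : (x : unitary U) ∈ Zs U := (QuotientGroup.eq_one_iff _).1 h3
    refine Subgroup.mem_center_iff.2 fun y => ?_
    apply Subtype.ext
    apply Subtype.ext
    exact (h4 ((y : unitary U) : U)).symm

theorem partB : PartB := by
  intro U G _ _ hG σ hσ u hu hmul hd α hα
  have hP : Proj u σ α := ⟨hu, hmul, hα⟩
  refine partA U α ?_
  have h2 : Submodule.span ℂ (Set.range u) ≤ Submodule.span ℂ {x : U | ∃ y ∈ {g | NilUnipotent α g}, ∃ v w,
      Eigenvector α v ∧ Eigenvector α w ∧ x = v * y * w} := by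
    refine Submodule.span_mono ?_
    rintro _ ⟨g, rfl⟩
    have h1 : Eigenvector α 1 := ⟨1, norm_one, by rw [map_one, one_smul]⟩
    exact ⟨u g, nil_of_proj hP hG hσ g, 1, 1, h1, h1, by rw [one_mul, mul_one]⟩
  have h3 := Submodule.topologicalClosure_mono h2
  rw [hd, top_le_iff] at h3
  exact h3

end proofs

/-- **Möbius disjointness of quasi-unipotent endomorphisms of C*-algebras of nilpotent groups.** -/
theorem result : PartA ∧ PartB := ⟨partA, partB⟩

end Pool.Agent.Results.MP_7a8f48_an.NilpotentGroups
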