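import Pool.Agent.U708.SP.C
import Pool.Agent.U708.SK.Act
import Pool.Agent.R296.SM.Cyd
import Pool.Agent.N237.MD.Slow

/-!
# The Möbius function sees only the absolutely continuous part of the spectral measures of invariant functionals
(helper708)

Let `α` be an automorphism of a C*-algebra `A`, and suppose that for each `α`-invariant positive functional `φ` of norm
at most one the absolutely continuous part of the spectral measure of `x` has mass at most `c`. Then at almost all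
scales, and in logarithmic mean, the norm of `(1/N) ∑_{n ≤ N} μ(n) e(nθ) αⁿ(x)` is at most `√(6c/π²) + o(1)`, uniformly
in `θ`; for the Liouville function the bound is `√c + o(1)`. In particular the orbits are disjoint in norm from `μ` and
`λ` if all spectral measures are singular.
-/

set_option autoImplicit false

open Filter Topology Finset MeasureTheory

namespace Pool.Agent.Results.MP_7a8f48_an.SingularPart

universe u v

open Classical in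
/-- `E` has logarithmic density zero -/
def LogDensityZero (E : Set ℕ) : Prop := Tendsto
  (fun X : ℕ => (∑ n ∈ Icc 1 X, if n ∈ E then (1 : ℝ) / n else 0) / Real.log X) atTop (𝓝 0)

/-- the Möbius function -/
def mu (n : ℕ) : ℤ := ArithmeticFunction.moebius n

/-- the Liouville function -/
def lam (n : ℕ) : ℤ := (-1) ^ ArithmeticFunction.cardFactors n

/-! ### the conclusion -/

section concl

variable {X : Type v} [NormedAddCommGroup X] [NormedSpace ℂ X]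

/-- the sum of `h m e(mθ) v m` over the `m` in `A`, where `e(t) = exp (2 π i t)` -/
noncomputable def twistedSum (h : ℕ → ℤ) (θ : ℝ) (A : Finset ℕ) (v : ℕ → X) : X :=
  ∑ m ∈ A, ((h m : ℂ) * Complex.exp (2 * Real.pi * Complex.I * m * θ)) • v m

/-- The twisted averages of the sequences of the family `𝓥` against `h` have norm at most `b + o(1)`, uniformly over
the family and the twist: (1) for the long averages up to `N`, `N` outside `E`, and (2) in logarithmic mean, for all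
`N`. -/
def BoundedBy (E : Set ℕ) (h : ℕ → ℤ) (b : ℝ) (𝓥 : Set (ℕ → X)) : Prop :=
  ∀ ε : ℝ, 0 < ε → ∃ N0 : ℕ, ∀ N ≥ N0, ∀ v ∈ 𝓥, ∀ θ : ℝ,
    (N ∉ E → ‖twistedSum h θ (Icc 1 N) v‖ ≤ (b + ε) * N) ∧
      ‖twistedSum h θ (Icc 1 N) (fun m => (1 / (m : ℂ)) • v m)‖ ≤ (b + ε) * Real.log N

/-- the bounds `√(6c/π²)` for the Möbius function and `√c` for the Liouville function; for `c = 0` this is disjointness
from both functions -/
def Conclusion (E : Set ℕ) (c : ℝ) (𝓥 : Set (ℕ → X)) : Prop :=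
  BoundedBy E mu √(6 / Real.pi ^ 2 * c) 𝓥 ∧ BoundedBy E lam √c 𝓥

end concl

/-! ### spectral measures -/

section defs

variable {A : Type u} [NonUnitalCStarAlgebra A]

/-- *-automorphisms of C*-algebras -/
def Automorphism (α : A → A) : Prop :=
  ((∀ a b, α (a + b) = α a + α b) ∧ (∀ (z : ℂ) a, α (z • a) = z • α a) ∧ (∀ a b, α (a * b) = α a * α b) ∧
    ∀ a, α (star a) = star (α a)) ∧ Function.Bijective α

/-- positive functionals of norm at most one -/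
def Positive (φ : A →L[ℂ] ℂ) : Prop := (∀ a, 0 ≤ (φ (star a * a)).re ∧ (φ (star a * a)).im = 0) ∧ ‖φ‖ ≤ 1

/-- `φ` is invariant under `α` -/
def Invariant (α : A → A) (φ : A →L[ℂ] ℂ) : Prop := ∀ a, φ (α a) = φ a

/-- `σ` is the spectral measure of `x` for the invariant positive functional `φ`: the finite measure on
`ℝ/ℤ` with `φ (x* αᵏ(x)) = ∫ exp(2 π i k η) dσ(η)` for `k ≥ 0` -/
def IsSpectralMeasure (α : A → A) (φ : A →L[ℂ] ℂ) (x : A) (σ : Measure UnitAddCircle) : Prop :=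
  IsFiniteMeasure σ ∧ ∀ k : ℕ, φ (star x * α^[k] x) = ∫ η, (fourier (k : ℤ) η : ℂ) ∂σ

/-- The absolutely continuous part of the spectral measure `σ` of `x` for `φ` has mass at most `c`: there is a Borel set
`S` of Lebesgue measure zero with `σ(Sᶜ) ≤ c`. For `c = 0` the spectral measure is singular. -/
def ContinuousMass (α : A → A) (φ : A →L[ℂ] ℂ) (x : A) (c : ℝ) : Prop :=
  ∃ σ : Measure UnitAddCircle, IsSpectralMeasure α φ x σ ∧
    ∃ S : Set UnitAddCircle, MeasurableSet S ∧ volume S = 0 ∧ σ.real Sᶜ ≤ c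

/-- `φ` is a weak* cluster point, for `N → ∞`, of the averages `(1/N) ∑_{n ≤ N} ρ ∘ αⁿ` of the elements `ρ` of
`R` -/
def ClusterPoint (α : A → A) (R : Set (A →L[ℂ] ℂ)) (φ : A →L[ℂ] ℂ) : Prop :=
  ∀ (F : Finset A) (ε : ℝ), 0 < ε → ∀ N₀ : ℕ, ∃ N ≥ N₀, ∃ ρ ∈ R, ∀ a ∈ F,
    ‖(1 / (N : ℂ)) * ∑ n ∈ Icc 1 N, ρ (α^[n] a) - φ a‖ < ε

end defs

/-! ### the parts -/

/-- (A) If the absolutely continuous parts of the spectral measures of `x` have mass at most `c` for all invariant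
positive functionals, then the averages of `αⁿ(x)` are bounded in norm. -/
def PartA (E : Set ℕ) : Prop :=
  ∀ (A : Type u) [NonUnitalCStarAlgebra A] (α : A → A), Automorphism α → ∀ (x : A) (c : ℝ), 0 ≤ c →
    (∀ φ : A →L[ℂ] ℂ, Positive φ → Invariant α φ → ContinuousMass α φ x c) → Conclusion E c {fun n => α^[n] x}

/-- (B) Let `S` be a set of positive functionals on a unital algebra such that the absolutely continuous part of the
spectral measure of `x` has mass at most `c` for all invariant cluster points of the averages of the elements of `S`.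
Then the averages of `ρ(b βⁿ(x))` are bounded, uniformly for `ρ` in `S` and `b` in the unit ball. -/
def PartB (E : Set ℕ) : Prop :=
  ∀ (B : Type u) [CStarAlgebra B] (β : B → B), Automorphism β → ∀ (S : Set (B →L[ℂ] ℂ)) (x : B) (c : ℝ), 0 ≤ c →
    (∀ ρ ∈ S, Positive ρ) →
    (∀ φ : B →L[ℂ] ℂ, Positive φ → Invariant β φ → ClusterPoint β S φ → ContinuousMass β φ x c) →
    Conclusion E c {v : ℕ → ℂ | ∃ ρ ∈ S, ∃ b : B, ‖b‖ ≤ 1 ∧ v = fun n => ρ (b * β^[n] x)}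

/-- (C) Let `D` be a set of elements whose spectral measures are singular for all invariant positive functionals. Then
the orbits of all elements of the closed span of `D` are disjoint in norm from `μ` and from `λ`. -/
def PartC (E : Set ℕ) : Prop :=
  ∀ (A : Type u) [NonUnitalCStarAlgebra A] (α : A → A), Automorphism α → ∀ D : Set A,
    (∀ φ : A →L[ℂ] ℂ, Positive φ → Invariant α φ → ∀ x ∈ D, ContinuousMass α φ x 0) →
    ∀ x ∈ closure (Submodule.span ℂ D : Set A), Conclusion E 0 {fun n => α^[n] x}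

open Pool.Agent.R296.RE Pool.Agent.R296.VC Pool.Agent.R296.SM Pool.Agent.U708.SP

theorem kf_of {E F : Set ℕ} {f : ℕ → ℤ} (h : ∀ h : ℕ, 1 ≤ h → ∀ ε : ℝ, 0 < ε → ∃ N₀ : ℕ, ∀ N : ℕ, N₀ ≤ N →
    N ∉ E → ∀ α : ℝ, ‖Pool.Agent.Y842.PH.Cr f h N α‖ ≤ ε * N) (hEF : E ⊆ F) : Kf f F := by
  intro k hk ε hε
  obtain ⟨N₀, h1⟩ := h k hk ε hε
  exact ⟨N₀, fun N hN hNE => h1 N hN (fun h3 => hNE (hEF h3))⟩

theorem bounded_of {X : Type v} [NormedAddCommGroup X] [NormedSpace ℂ X] {E : Set ℕ} (hE : LDZ E) {f : ℕ → ℤ}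
    (hf : ∀ n, |f n| ≤ 1) {b : ℝ} (hb : 0 ≤ b) {𝓥 : Set (ℕ → X)} {M : ℝ} (hM : ∀ v ∈ 𝓥, ∀ n, ‖v n‖ ≤ M)
    (h : ∀ ε : ℝ, 0 < ε → ∃ N₀ : ℕ, ∀ N : ℕ, N₀ ≤ N → N ∉ E → ∀ v ∈ 𝓥, ∀ θ : ℝ,
      ‖twistedSum f θ (Icc 1 N) v‖ ≤ (b + ε) * N) : BoundedBy E f b 𝓥 := by
  intro ε hε
  obtain ⟨N₁, h2⟩ := h ε hε
  obtain ⟨N₀, h3⟩ := logq hE (M := M) hb
    (𝓕 := {a : ℕ → X | ∃ v ∈ 𝓥, ∃ θ : ℝ,
      a = fun m => ((f m : ℂ) * Complex.exp (2 * Real.pi * Complex.I * m * θ)) • v m})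
    (by
      rintro _ ⟨v, hv, θ, rfl⟩ n
      rw [norm_smul, exp_fourier]
      calc _ ≤ 1 * M := mul_le_mul (norm_tws hf (θ : UnitAddCircle) n) (hM v hv n) (norm_nonneg _) zero_le_one
        _ = M := one_mul _)
    (by
      intro ε hε
      obtain ⟨N₀, h4⟩ := h ε hε
      refine ⟨N₀, ?_⟩
      rintro N hN hNE _ ⟨v, hv, θ, rfl⟩
      exact h4 N hN hNE v hv θ) ε hε
  refine ⟨N₀ + N₁, fun N hN v hv θ => ⟨fun hNE => h2 N (by omega) hNE v hv θ, ?_⟩⟩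
  refine le_trans (le_of_eq ?_) (h3 N (by omega) _ ⟨v, hv, θ, rfl⟩)
  unfold twistedSum
  congr 1
  exact sum_congr rfl fun m _ => smul_comm _ _ _

theorem exists_equiv {A : Type u} [NonUnitalCStarAlgebra A] {α : A → A} (h : Automorphism α) :
    ∃ γ : A ≃⋆ₐ[ℂ] A, ∀ (n : ℕ) (x : A), (γ ^ n) x = α^[n] x := by
  obtain ⟨⟨h1, h2, h3, h4⟩, h5⟩ := h
  refine ⟨StarAlgEquiv.ofBijective (R := ℂ)
    ({ toFun := α
       map_smul' := h2
       map_zero' := by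
         have := h2 0 0
         rwa [zero_smul, zero_smul] at this
       map_add' := h1
       map_mul' := h3
       map_star' := h4 } : A →⋆ₙₐ[ℂ] A) h5, fun n x => ?_⟩
  induction n with
  | zero => rfl
  | succ n ih =>
    rw [Function.iterate_succ_apply', ← ih, pow_succ']
    rfl

theorem near_of {A : Type u} [NonUnitalCStarAlgebra A] {α : A → A} {γ : A ≃⋆ₐ[ℂ] A}
    (hγ : ∀ (n : ℕ) (x : A), (γ ^ n) x = α^[n] x) {φ : A →L[ℂ] ℂ} {x : A} {c : ℝ} (h : ContinuousMass α φ x c) :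
    ∃ σ : Measure UnitAddCircle, IsFiniteMeasure σ ∧
      (∀ k : ℕ, φ (star x * (γ ^ k) x) = ∫ η, (fourier (k : ℤ) η : ℂ) ∂σ) ∧ Near σ c := by
  obtain ⟨σ, ⟨h1, h2⟩, h3⟩ := h
  exact ⟨σ, h1, fun k => by rw [hγ]; exact h2 k, h3⟩

open scoped ComplexOrder in
theorem positive_of {A : Type u} [NonUnitalCStarAlgebra A] {φ : A →L[ℂ] ℂ} (h : ∀ a, 0 ≤ φ (star a * a))
    (h1 : ‖φ‖ ≤ 1 ^ 2) : Positive φ :=
  ⟨fun a => by
    obtain ⟨e1, e2⟩ := Complex.nonneg_iff.1 (h a)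
    exact ⟨e1, e2.symm⟩, by rwa [one_pow] at h1⟩

theorem norm_from {f : ℕ → ℤ} {A : Type u} [NonUnitalCStarAlgebra A] (γ : A ≃⋆ₐ[ℂ] A) {K : Type u}
    [NormedAddCommGroup K] [InnerProductSpace ℂ K] [CompleteSpace K] {π : A →⋆ₙₐ[ℂ] (K →L[ℂ] K)}
    (hπ : ∀ a, ‖π a‖ = ‖a‖) (x : A) {b : ℝ} (hb : 0 ≤ b) {N : ℕ} {θ : ℝ}
    (h : ∀ ξ : {ξ : K // ‖ξ‖ ≤ 1}, ‖∑ m ∈ Ioc (0 : ℤ) N, ext0 (tws f (θ : UnitAddCircle)) m • yy γ π ξ.1 x m‖ ≤ b) :
    ‖twistedSum f θ (Icc 1 N) (fun n => (γ ^ n) x)‖ ≤ b := by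
  have hpi : ∀ (ξ : K), π (twistedSum f θ (Icc 1 N) (fun m => (γ ^ m) x)) ξ =
      ∑ m ∈ Icc 1 N, ((f m : ℂ) * Complex.exp (2 * Real.pi * Complex.I * m * θ)) • π ((γ ^ m) x) ξ := by
    intro ξ
    unfold twistedSum
    rw [map_sum, _root_.sum_apply]
    exact sum_congr rfl fun m _ => by rw [map_smul]; rfl
  rw [← hπ]
  refine norm_op_le _ _ hb fun ξ hξ => ?_
  rw [hpi, conv_Icc f θ (yy γ π ξ x) _ (fun n => by simp [yy])]
  exact h ⟨ξ, hξ⟩

theorem partA_of {f : ℕ → ℤ} (hf : ∀ n, |f n| ≤ 1) {E : Set ℕ} (hE : LDZ E) (hk : Kf f E) {q : ℝ} (hq0 : 0 ≤ q)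
    (hq : Msq f q) {A : Type u} [NonUnitalCStarAlgebra A] {α : A → A} (hα : Automorphism α) {x : A} {c : ℝ}
    (hc : 0 ≤ c) (H : ∀ φ : A →L[ℂ] ℂ, Positive φ → Invariant α φ → ContinuousMass α φ x c) :
    BoundedBy E f √(q * c) {fun n => α^[n] x} := by
  obtain ⟨γ, hγ⟩ := exists_equiv hα
  obtain ⟨K, _, _, _, π, hπ⟩ := exists_faithful A
  have hγ1 : ∀ a, γ a = α a := fun a => hγ 1 a
  refine bounded_of hE hf (Real.sqrt_nonneg _) (M := ‖x‖) ?_ ?_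
  · rintro _ rfl n
    simp only
    rw [← hγ]
    exact (norm_pow_apply γ n x).le
  · intro ε hε
    obtain ⟨N₀, h1⟩ := orbit γ (π := π) (Ξ := fun ξ : {ξ : K // ‖ξ‖ ≤ 1} => ξ.1) (R := 1) hf hk hq0 hq zero_le_one
      (fun ξ => ξ.2) x c hc (fun φ h1 h2 h3 _ => near_of hγ (H φ (positive_of h1 h3) (fun a => by
        rw [← hγ1]; exact h2 a))) ε hε
    refine ⟨N₀, ?_⟩
    rintro N hN hNE _ rfl θ
    have h2 := norm_from (f := f) γ hπ x (b := (√(q * c) + ε) * N) (by positivity) (N := N) (θ := θ)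
      (fun ξ => h1 N hN hNE _ ξ)
    simp only [hγ] at h2
    exact h2

theorem partC_of {f : ℕ → ℤ} (hf : ∀ n, |f n| ≤ 1) {E : Set ℕ} (hE : LDZ E) (hk : Kf f E)
    {A : Type u} [NonUnitalCStarAlgebra A] {α : A → A} (hα : Automorphism α) {D : Set A}
    (H : ∀ φ : A →L[ℂ] ℂ, Positive φ → Invariant α φ → ∀ x ∈ D, ContinuousMass α φ x 0) {x : A}
    (hx : x ∈ closure (Submodule.span ℂ D : Set A)) : BoundedBy E f 0 {fun n => α^[n] x} := by
  obtain ⟨γ, hγ⟩ := exists_equiv hα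
  obtain ⟨K, _, _, _, π, hπ⟩ := exists_faithful A
  have hγ1 : ∀ a, γ a = α a := fun a => hγ 1 a
  refine bounded_of hE hf le_rfl (M := ‖x‖) ?_ ?_
  · rintro _ rfl n
    simp only
    rw [← hγ]
    exact (norm_pow_apply γ n x).le
  · intro ε hε
    have h0 : Sm f E (fun (ξ : {ξ : K // ‖ξ‖ ≤ 1}) => yy γ π ξ.1 x) := by
      refine Sm_closure γ hf zero_le_one (fun ξ => ξ.2) (D := D) (fun u hu ε hε => ?_) hx
      obtain ⟨N₀, h1⟩ := orbit γ (π := π) (Ξ := fun ξ : {ξ : K // ‖ξ‖ ≤ 1} => ξ.1) (R := 1) hf hk zero_le_one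
        (msq_one hf) zero_le_one (fun ξ => ξ.2) u 0 le_rfl (fun φ h1 h2 h3 _ => near_of hγ (H φ (positive_of h1 h3)
          (fun a => by rw [← hγ1]; exact h2 a) u hu)) ε hε
      refine ⟨N₀, fun N hN hNE θ i => ?_⟩
      have h2 := h1 N hN hNE θ i
      rwa [mul_zero, Real.sqrt_zero, zero_add] at h2
    obtain ⟨N₀, h1⟩ := h0 ε hε
    refine ⟨N₀, ?_⟩
    rintro N hN hNE _ rfl θ
    have h2 := norm_from (f := f) γ hπ x (b := (0 + ε) * N) (by positivity) (N := N) (θ := θ)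
      (fun ξ => by rw [zero_add]; exact h1 N hN hNE _ ξ)
    simp only [hγ] at h2
    exact h2

theorem partB_of {f : ℕ → ℤ} (hf : ∀ n, |f n| ≤ 1) {E : Set ℕ} (hE : LDZ E) (hk : Kf f E) {q : ℝ} (hq0 : 0 ≤ q)
    (hq : Msq f q) {B : Type u} [CStarAlgebra B] {β : B → B} (hβ : Automorphism β) {S : Set (B →L[ℂ] ℂ)} {x : B} {c : ℝ}
    (hc : 0 ≤ c) (hS : ∀ ρ ∈ S, Positive ρ)
    (H : ∀ φ : B →L[ℂ] ℂ, Positive φ → Invariant β φ → ClusterPoint β S φ → ContinuousMass β φ x c) :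
    BoundedBy E f √(q * c) {v : ℕ → ℂ | ∃ ρ ∈ S, ∃ b : B, ‖b‖ ≤ 1 ∧ v = fun n => ρ (b * β^[n] x)} := by
  obtain ⟨γ, hγ⟩ := exists_equiv hβ
  have hγ1 : ∀ a, γ a = β a := fun a => hγ 1 a
  obtain ⟨K, _, _, _, π, ξ, hξ⟩ := exists_gnsU B S (fun ρ hρ a => by
    obtain ⟨e1, e2⟩ := (hS ρ hρ).1 a
    exact Complex.nonneg_iff.2 ⟨e1, e2.symm⟩)
  have hone : ‖(1 : B)‖ ≤ 1 := by
    rcases subsingleton_or_nontrivial B with h | h
    · rw [Subsingleton.elim (1 : B) 0, norm_zero]; norm_num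
    · rw [CStarRing.norm_one]
  have hn : ∀ ρ : S, ‖ξ ρ‖ ≤ 1 := by
    intro ρ
    have h1 : (inner ℂ (ξ ρ) (ξ ρ) : ℂ) = ρ.1 1 := by
      have := hξ ρ 1
      rw [map_one] at this
      exact this
    rw [inner_self_eq_norm_sq_to_K] at h1
    have h2 : ‖ξ ρ‖ ^ 2 = ‖ρ.1 1‖ := by
      rw [← h1]
      norm_cast
      rw [abs_of_nonneg (sq_nonneg _)]
    have h3 : ‖ρ.1 1‖ ≤ 1 := by
      refine (ρ.1.le_opNorm 1).trans ?_
      exact mul_le_one₀ (hS ρ.1 ρ.2).2 (norm_nonneg _) hone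
    exact (sq_le_one_iff₀ (norm_nonneg _)).1 (h2 ▸ h3)
  have hb : ∀ (ρ : S) (b : B), ‖b‖ ≤ 1 → ‖π (star b) (ξ ρ)‖ ≤ 1 := by
    intro ρ b hb
    refine (pi_le (π : B →⋆ₙₐ[ℂ] (K →L[ℂ] K)) (ξ ρ) _).trans ?_
    rw [norm_star]
    exact mul_le_one₀ (hn ρ) (norm_nonneg _) hb
  have hval : ∀ (ρ : S) (b : B) (n : ℕ), ρ.1 (b * β^[n] x) =
      inner ℂ (π (star b) (ξ ρ)) (yy γ (π : B →⋆ₙₐ[ℂ] (K →L[ℂ] K)) (ξ ρ) x n) := by
    intro ρ b n
    rw [← hγ]
    simp only [yy, Int.toNat_natCast]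
    rw [← hξ, map_mul, map_star]
    show inner ℂ (ξ ρ) ((π b) (π ((γ ^ n) x) (ξ ρ))) = inner ℂ _ (π ((γ ^ n) x) (ξ ρ))
    rw [ContinuousLinearMap.star_eq_adjoint, ContinuousLinearMap.adjoint_inner_left]
  refine bounded_of hE hf (Real.sqrt_nonneg _) (M := ‖x‖) ?_ ?_
  · rintro _ ⟨ρ, hρ, b, hb1, rfl⟩ n
    simp only
    rw [hval ⟨ρ, hρ⟩ b n]
    refine (norm_inner_le_norm _ _).trans ?_
    calc _ ≤ 1 * (1 * ‖x‖) := mul_le_mul (hb ⟨ρ, hρ⟩ b hb1)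
          ((yy_le γ (π : B →⋆ₙₐ[ℂ] (K →L[ℂ] K)) (ξ ⟨ρ, hρ⟩) x n).trans
            (mul_le_mul_of_nonneg_right (hn _) (norm_nonneg _))) (norm_nonneg _) zero_le_one
      _ = ‖x‖ := by rw [one_mul, one_mul]
  · intro ε hε
    obtain ⟨N₀, h1⟩ := orbit γ (π := (π : B →⋆ₙₐ[ℂ] (K →L[ℂ] K))) (Ξ := ξ) (R := 1) hf hk hq0 hq zero_le_one
      hn x c hc (fun φ h1 h2 h3 h4 => near_of hγ (H φ (positive_of h1 h3) (fun a => by
        rw [← hγ1]; exact h2 a) (by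
          intro F ε hε N₀
          obtain ⟨N, hN, i, hi⟩ := h4 F ε hε N₀
          refine ⟨N, hN, i.1, i.2, fun a ha => ?_⟩
          have h4 : ‖av γ (rr (π : B →⋆ₙₐ[ℂ] (K →L[ℂ] K)) (ξ i)) N a - φ a‖ < ε := hi a ha
          have h5 : rr (π : B →⋆ₙₐ[ℂ] (K →L[ℂ] K)) (ξ i) = ⇑i.1 := by
            funext a
            exact hξ i a
          rw [h5] at h4
          unfold av at h4
          simp only [hγ] at h4
          exact h4))) ε hε
    refine ⟨N₀, ?_⟩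
    rintro N hN hNE _ ⟨ρ, hρ, b, hb1, rfl⟩ θ
    have h2 := h1 N hN hNE (θ : UnitAddCircle) ⟨ρ, hρ⟩
    have h3 : twistedSum f θ (Icc 1 N) (fun n => ρ (b * β^[n] x)) = inner ℂ (π (star b) (ξ ⟨ρ, hρ⟩))
        (∑ m ∈ Ioc (0 : ℤ) N, ext0 (tws f (θ : UnitAddCircle)) m •
          yy γ (π : B →⋆ₙₐ[ℂ] (K →L[ℂ] K)) (ξ ⟨ρ, hρ⟩) x m) := by
      rw [← conv_Icc f θ (yy γ (π : B →⋆ₙₐ[ℂ] (K →L[ℂ] K)) (ξ ⟨ρ, hρ⟩) x) _ (fun n => rfl), inner_sum]
      unfold twistedSum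
      refine sum_congr rfl fun m _ => ?_
      rw [inner_smul_right, smul_eq_mul, ← hval ⟨ρ, hρ⟩ b m]
    rw [h3]
    refine (norm_inner_le_norm _ _).trans ?_
    calc _ ≤ 1 * ((√(q * c) + ε) * N) := mul_le_mul (hb ⟨ρ, hρ⟩ b hb1) h2 (norm_nonneg _) zero_le_one
      _ = _ := one_mul _

/-- **The Möbius function sees only the absolutely continuous part of the spectral measures of invariant functionals.**
There is one set `E` of logarithmic density zero such that (A), (B) and (C) hold. -/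
theorem result : ∃ E : Set ℕ, LogDensityZero E ∧ PartA.{u} E ∧ PartB.{u} E ∧ PartC.{u} E := by
  obtain ⟨E₁, hE₁, h1⟩ := Pool.Agent.Y842.PH.one_E (Pool.Agent.Y304.U.avc Pool.Agent.Y304.U.pw)
    Pool.Agent.TH823.MRS.mob Pool.Agent.TH823.MRS.mob_bdd Pool.Agent.TH823.MRS.mob_flip
    Pool.Agent.TH823.MRS.expo_mob
  obtain ⟨E₂, hE₂, h2⟩ := Pool.Agent.Y842.PH.one_E (Pool.Agent.Y304.U.avc Pool.Agent.Y304.U.pw)
    Pool.Agent.H376R2.MR.lam Pool.Agent.Y842.EL.abs_lam Pool.Agent.TH823.MRS.lam_flip Pool.Agent.TH823.MRS.expo_lam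
  have hE : LogDensityZero (E₁ ∪ E₂) := Pool.Agent.Y842.EL.LZ_union hE₁ hE₂
  have hmu : ∀ n, |mu n| ≤ 1 := fun n => ArithmeticFunction.abs_moebius_le_one
  have hlam : ∀ n, |lam n| ≤ 1 := fun n => by
    unfold lam
    rw [abs_pow, abs_neg, abs_one, one_pow]
  have s1 : Kf mu (E₁ ∪ E₂) := kf_of h1 Set.subset_union_left
  have s2 : Kf lam (E₁ ∪ E₂) := kf_of h2 Set.subset_union_right
  have hq : (0 : ℝ) ≤ 6 / Real.pi ^ 2 := by positivity
  refine ⟨E₁ ∪ E₂, hE, ?_, ?_, ?_⟩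
  · intro A _ α hα x c hc H
    refine ⟨partA_of hmu hE s1 hq msq_mu hα hc H, ?_⟩
    have h3 := partA_of hlam hE s2 zero_le_one (msq_one hlam) hα hc H
    rwa [one_mul] at h3
  · intro B _ β hβ S x c hc hS H
    refine ⟨partB_of hmu hE s1 hq msq_mu hβ hc hS H, ?_⟩
    have h3 := partB_of hlam hE s2 zero_le_one (msq_one hlam) hβ hc hS H
    rwa [one_mul] at h3
  · intro A _ α hα D H x hx
    have h3 := partC_of hmu hE s1 hα H hx
    have h4 := partC_of hlam hE s2 hα H hx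
    unfold Conclusion
    rw [mul_zero, Real.sqrt_zero]
    exact ⟨h3, h4⟩

end Pool.Agent.Results.MP_7a8f48_an.SingularPart
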