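import Pool.Agent.U708.SK.Act
import Pool.Agent.R296.SM.Cyd
import Pool.Agent.N237.MD.Slow

/-!
# Möbius disjointness in norm for skew product automorphisms of `C(Y, B)` and for walks in C*-dynamical systems
(helper708)

Let `(Y, S)` be a compact system with almost periodic orbits (for example a rotation), let a topological group `G` act on
an arbitrary C*-algebra `B`, and let `φ : Y → G` be continuous. The endomorphism `(α F)(y) = β_φ(y)⁻¹ (F (S y))` of
`C(Y, B)` satisfies the conclusion of the problem in norm, at all scales outside one set of logarithmic density zero and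
in logarithmic mean, if the cocycle generated by `φ` is bounded in probability along infinitely many times. The
automorphisms `β_g` of `B` are arbitrary: their entropy may be positive or infinite. By the Denjoy–Koksma inequality
this is so for all strongly continuous actions of `ℝ^d` along walks driven by an irrational rotation with steps of
bounded variation and mean zero; for walks on `ℤ^d` the values `V(S_n(y))` of arbitrary bounded functions with values in
an arbitrary normed space are disjoint in norm.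

The proof uses the criterion of `Pool.Agent.U708.ST` (small complexity along sparse sets of times, relative to an almost
periodic base), for the action of `G` on the compact space of the functions on `B` which are Lipschitz with constant one.
-/

set_option autoImplicit false

open Filter Topology Finset

namespace Pool.Agent.Results.MP_7a8f48_an.SkewProducts

universe v

open Classical in
/-- `E` has logarithmic density zero -/
def LogDensityZero (E : Set ℕ) : Prop := Tendsto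
  (fun X : ℕ => (∑ n ∈ Icc 1 X, if n ∈ E then (1 : ℝ) / n else 0) / Real.log X) atTop (𝓝 0)

/-- the Möbius function -/
def mu (n : ℕ) : ℤ := ArithmeticFunction.moebius n

/-- the Liouville function -/
def lam (n : ℕ) : ℤ := (-1) ^ ArithmeticFunction.cardFactors n

/-! ### the conclusion -/

section concl

variable {X : Type v} [NormedAddCommGroup X] [NormedSpace ℂ X]

/-- the sum of `h m e(mθ) v m` over the `m` in `A`, where `e(t) = exp (2 π i t)` -/
noncomputable def twistedSum (h : ℕ → ℤ) (θ : ℝ) (A : Finset ℕ) (v : ℕ → X) : X :=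
  ∑ m ∈ A, ((h m : ℂ) * Complex.exp (2 * Real.pi * Complex.I * m * θ)) • v m

/-- The sequences of the family `𝓥` are disjoint from `h` in norm, uniformly over the family and the twist: (1) for the
long averages up to `N`, `N` outside `E`, and (2) in logarithmic mean, for all `N`. -/
def DisjointOutside (E : Set ℕ) (h : ℕ → ℤ) (𝓥 : Set (ℕ → X)) : Prop :=
  ∀ ε : ℝ, 0 < ε → ∃ N0 : ℕ, ∀ N ≥ N0, ∀ v ∈ 𝓥, ∀ θ : ℝ,
    (N ∉ E → ‖twistedSum h θ (Icc 1 N) v‖ ≤ ε * N) ∧
      ‖twistedSum h θ (Icc 1 N) (fun m => (1 / (m : ℂ)) • v m)‖ ≤ ε * Real.log N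

/-- disjointness from the Möbius function and from the Liouville function -/
def Conclusion (E : Set ℕ) (𝓥 : Set (ℕ → X)) : Prop := DisjointOutside E mu 𝓥 ∧ DisjointOutside E lam 𝓥

end concl

/-! ### bases and cocycles -/

/-- `e(x) = exp(2 π i x)` -/
noncomputable def e (x : ℝ) : ℂ := Complex.exp (2 * Real.pi * x * Complex.I)

/-- The orbits of the points of `Y` are almost periodic at each scale, uniformly in the point: for every continuous
function `c` and every `ε > 0` there is `J` such that at every large scale `N` and for each `y` there are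
`J` frequencies `α_j` and coefficients `ρ_j(n)`, bounded by `J` and of total variation at most `J` on `[0, N]`, with
`∑_{n < N} |c(Sⁿ y) - ∑_j ρ_j(n) e(α_j n)| ≤ ε N`; frequencies and coefficients may depend on `N` and `y`. -/
def AlmostPeriodic {Y : Type} [TopologicalSpace Y] (S : Y → Y) : Prop :=
  ∀ c : C(Y, ℂ), ∀ ε : ℝ, 0 < ε → ∃ J N₀ : ℕ, ∀ N : ℕ, N₀ ≤ N → ∀ y : Y, ∃ (ρ : Fin J → ℕ → ℂ) (α : Fin J → ℝ),
    (∀ j n, ‖ρ j n‖ ≤ J) ∧ (∀ j, ∑ n ∈ range N, ‖ρ j (n + 1) - ρ j n‖ ≤ J) ∧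
      ∑ n ∈ range N, ‖c (S^[n] y) - ∑ j, ρ j n * e (α j * n)‖ ≤ ε * N

/-- All orbits are in `G` but for a proportion `δ` of the times, uniformly in the point. -/
def MostlyIn {Y : Type} (S : Y → Y) (G : Set Y) (δ : ℝ) : Prop :=
  ∃ N₀ : ℕ, ∀ N ≥ N₀, ∀ y, ∃ V : Finset ℕ, (∀ n < N, S^[n] y ∉ G → n ∈ V) ∧ (V.card : ℝ) ≤ δ * N

/-- the product `φ(S^(n-1) y) ⋯ φ(S y) φ(y)` -/
def product {Y G : Type} [Group G] (S : Y → Y) (φ : Y → G) : ℕ → Y → G
  | 0, _ => 1
  | n + 1, y => φ (S^[n] y) * product S φ n y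

/-- The cocycle is bounded in probability along infinitely many times: for each `δ > 0` there is a compact set `K` such
that for infinitely many `m` all orbits spend at least the proportion `1 - δ` of their time at points `y` with
`φ(S^(m-1) y) ⋯ φ(y)` in `K`. -/
def BoundedAlong {Y G : Type} [Group G] [TopologicalSpace G] (S : Y → Y) (φ : Y → G) : Prop :=
  ∀ δ : ℝ, 0 < δ → ∃ K : Set G, IsCompact K ∧ ∀ J : ℕ, ∃ m ≥ J, MostlyIn S {y | product S φ m y ∈ K} δ

/-- `g` has bounded variation and mean zero on the circle -/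
def BVMeanZero (g : AddCircle (1 : ℝ) → ℝ) : Prop :=
  BoundedVariationOn (fun x : ℝ => g (x : AddCircle (1 : ℝ))) (Set.Icc 0 1) ∧
    ∫ x in (0 : ℝ)..1, g (x : AddCircle (1 : ℝ)) = 0

/-- the walk `S_n(y) = f(y) + f(y + ξ) + ⋯ + f(y + (n - 1) ξ)` -/
noncomputable def walk {A : Type} [AddCommMonoid A] (ξ : ℝ) (f : AddCircle (1 : ℝ) → A) (y : AddCircle (1 : ℝ))
    (n : ℕ) : A :=
  ∑ j ∈ range n, f (y + j • (ξ : AddCircle (1 : ℝ)))

/-- *-homomorphisms of C*-algebras -/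
def Hom {A B : Type} [NonUnitalCStarAlgebra A] [NonUnitalCStarAlgebra B] (τ : A → B) : Prop :=
  (∀ a b, τ (a + b) = τ a + τ b) ∧ (∀ (z : ℂ) a, τ (z • a) = z • τ a) ∧ (∀ a b, τ (a * b) = τ a * τ b) ∧
    ∀ a, τ (star a) = star (τ a)

/-- a strongly continuous action of `G` on the C*-algebra `B` by *-automorphisms -/
def Action {G B : Type} [Group G] [TopologicalSpace G] [NonUnitalCStarAlgebra B] (β : G → B → B) : Prop :=
  (∀ g, Hom (β g)) ∧ (∀ b, β 1 b = b) ∧ (∀ g h b, β (g * h) b = β g (β h b)) ∧ ∀ b, Continuous fun g => β g b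

/-- `α` is the skew product endomorphism `(α F)(y) = β_φ(y)⁻¹ (F (S y))` of `C(Y, B)`, where the action `β` is strongly
continuous, `S` and `φ` are continuous, the orbits of `S` are almost periodic and the cocycle is bounded in probability
along infinitely many times -/
def Skew {Y G B : Type} [TopologicalSpace Y] [Group G] [TopologicalSpace G] [NonUnitalCStarAlgebra B]
    (β : G → B → B) (S : Y → Y) (φ : Y → G) (α : C(Y, B) → C(Y, B)) : Prop :=
  Action β ∧ Continuous S ∧ Continuous φ ∧ AlmostPeriodic S ∧ BoundedAlong S φ ∧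
    ∀ F y, α F y = β (φ y)⁻¹ (F (S y))

/-- eigenvectors of `γ`, with an eigenvalue of modulus one -/
def Eigenvector {W : Type} [CStarAlgebra W] (γ : W → W) (c : W) : Prop := ∃ l : ℂ, ‖l‖ = 1 ∧ γ c = l • c

/-- All unital C*-algebras `W` with a unital endomorphism `γ` which contain an equivariant image of `(C(Y, B), α)`: the
conclusion holds for the closed span of the products `c ι(F) b`, where `c` and `b` are eigenvectors (for example in
crossed products). -/
def Systems (E : Set ℕ) {Y B : Type} [TopologicalSpace Y] [CompactSpace Y] [NonUnitalCStarAlgebra B]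
    (α : C(Y, B) → C(Y, B)) : Prop :=
  ∀ (W : Type) [CStarAlgebra W] (γ : W → W) (ι : C(Y, B) → W), Hom γ → γ 1 = 1 → Hom ι →
    (∀ F, γ (ι F) = ι (α F)) →
    ∀ x ∈ closure (Submodule.span ℂ {x : W | ∃ (c b : W) (F : C(Y, B)), Eigenvector γ c ∧ Eigenvector γ b ∧
      x = c * ι F * b} : Set W), Conclusion E {fun n => γ^[n] x}

/-! ### the parts -/

/-- (A) skew product endomorphisms of `C(Y, B)` over an almost periodic base, cocycles bounded along infinitely many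
times; (B) the C*-algebras which contain them -/
def PartAB (E : Set ℕ) : Prop :=
  ∀ (Y G B : Type) [TopologicalSpace Y] [CompactSpace Y] [T2Space Y] [Group G] [TopologicalSpace G]
    [IsTopologicalGroup G] [T2Space G] [NonUnitalCStarAlgebra B] (β : G → B → B) (S : Y → Y) (φ : Y → G)
    (α : C(Y, B) → C(Y, B)), Skew β S φ α →
    (∀ F : C(Y, B), Conclusion E {fun n => α^[n] F}) ∧ Systems E α

/-- (C) strongly continuous actions of `ℝ^d` on C*-algebras, along walks driven by an irrational rotation of the circle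
with steps of bounded variation and mean zero, uniformly over the starting points -/
def PartC (E : Set ℕ) : Prop :=
  ∀ (d : ℕ) (ξ : ℝ) (f : AddCircle (1 : ℝ) → Fin d → ℝ) (B : Type) [NonUnitalCStarAlgebra B]
    (β : Multiplicative (Fin d → ℝ) → B → B), Action β → Irrational ξ →
    (∀ i, BVMeanZero fun x => f x i) → ∀ F : C(AddCircle (1 : ℝ), B),
    Conclusion E {v | ∃ y : AddCircle (1 : ℝ),
      v = fun n : ℕ => β (Multiplicative.ofAdd (walk ξ f y n)) (F (y + n • (ξ : AddCircle (1 : ℝ))))}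

/-- (C), the endomorphism `(α F)(y) = β_f(y) (F (y + ξ))` of `C(ℝ/ℤ, B)` -/
def PartC' (E : Set ℕ) : Prop :=
  ∀ (d : ℕ) (ξ : ℝ) (f : AddCircle (1 : ℝ) → Fin d → ℝ) (B : Type) [NonUnitalCStarAlgebra B]
    (β : Multiplicative (Fin d → ℝ) → B → B), Action β → Irrational ξ → (∀ i, BVMeanZero fun x => f x i) →
    ∀ α : C(AddCircle (1 : ℝ), B) → C(AddCircle (1 : ℝ), B),
      (∀ F y, α F y = β (Multiplicative.ofAdd (f y)) (F (y + (ξ : AddCircle (1 : ℝ))))) →
      ∀ F, Conclusion E {fun n => α^[n] F}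

/-- (D) arbitrary functions `V` from `ℤ^d` to the unit balls of normed spaces, along such walks on `ℤ^d`, uniformly
over the starting points and over `V` -/
def PartD (E : Set ℕ) : Prop :=
  ∀ (d : ℕ) (ξ : ℝ) (f : AddCircle (1 : ℝ) → Fin d → ℤ), Irrational ξ → (∀ i, BVMeanZero fun x => (f x i : ℝ)) →
    ∀ (X : Type v) [NormedAddCommGroup X] [NormedSpace ℂ X],
    Conclusion E {v : ℕ → X | ∃ (y : AddCircle (1 : ℝ)) (V : (Fin d → ℤ) → X), (∀ k, ‖V k‖ ≤ 1) ∧
      v = fun n : ℕ => V (walk ξ f y n)}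

open Pool.Agent.R296.RE Pool.Agent.R296.VC Pool.Agent.R296.SM Pool.Agent.N237.MD Pool.Agent.U708.SK
open Pool.Agent.U708.ST hiding walk

theorem product_eq {Y G : Type} [Group G] (S : Y → Y) (φ : Y → G) (n : ℕ) (y : Y) :
    product S φ n y = prods S φ n y := by
  induction n with
  | zero => rfl
  | succ n ih =>
    show φ (S^[n] y) * product S φ n y = φ (S^[n] y) * prods S φ n y
    rw [ih]

theorem uap_of {Y : Type} [TopologicalSpace Y] {S : Y → Y} (h : AlmostPeriodic S) (c : C(Y, ℂ)) :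
    UAP {b | ∃ y ∈ (Set.univ : Set Y), b = fun n => c (S^[n] y)} := by
  intro ε hε
  obtain ⟨J, N₀, h1⟩ := h c ε hε
  refine ⟨J, N₀, ?_⟩
  rintro N hN _ ⟨y, -, rfl⟩
  exact h1 N hN y

theorem bdd_of {Y G : Type} [Group G] [TopologicalSpace G] {S : Y → Y} {φ : Y → G}
    (h : BoundedAlong S φ) : Pool.Agent.U708.ST.Bdd S φ Set.univ := by
  intro δ hδ
  obtain ⟨K, hK, h1⟩ := h δ hδ
  refine ⟨K, hK, fun J => ?_⟩
  obtain ⟨m, hm, N₀, h2⟩ := h1 J
  simp only [product_eq] at h2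
  exact ⟨m, hm, N₀, fun N hN y _ => h2 N hN y⟩

theorem kf_of {E F : Set ℕ} {f : ℕ → ℤ} (h : ∀ h : ℕ, 1 ≤ h → ∀ ε : ℝ, 0 < ε → ∃ N₀ : ℕ, ∀ N : ℕ, N₀ ≤ N →
    N ∉ E → ∀ α : ℝ, ‖Pool.Agent.Y842.PH.Cr f h N α‖ ≤ ε * N) (hEF : E ⊆ F) : Kf f F := by
  intro k hk ε hε
  obtain ⟨N₀, h1⟩ := h k hk ε hε
  exact ⟨N₀, fun N hN hNE => h1 N hN (fun h3 => hNE (hEF h3))⟩

theorem tw_eq (u : ℕ → ℤ) (θ : ℝ) (m : ℕ) :
    tw u θ m = (u m : ℂ) * Complex.exp (2 * Real.pi * Complex.I * m * θ) := by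
  unfold tw Pool.Agent.Helper602.MK.ee
  congr 2
  push_cast
  ring

theorem disj_of {X : Type v} [NormedAddCommGroup X] [NormedSpace ℂ X] {E : Set ℕ} {u : ℕ → ℤ} {𝓥 : Set (ℕ → X)}
    (h : NDis E u 𝓥) : DisjointOutside E u 𝓥 := by
  intro ε hε
  obtain ⟨N₀, h1⟩ := h ε hε
  refine ⟨N₀, fun N hN v hv θ => ⟨fun hNE => ?_, ?_⟩⟩
  · refine le_trans (le_of_eq ?_) ((h1 N hN v hv θ).1 hNE)
    unfold twistedSum
    simp only [tw_eq]
  · refine le_trans (le_of_eq ?_) (h1 N hN v hv θ).2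
    unfold twistedSum
    congr 1
    refine sum_congr rfl fun m _ => ?_
    rw [tw_eq, smul_smul]
    congr 1
    ring

/-- the bundled homomorphism -/
noncomputable def homOf {A B : Type} [NonUnitalCStarAlgebra A] [NonUnitalCStarAlgebra B] {τ : A → B} (h : Hom τ) :
    A →⋆ₙₐ[ℂ] B where
  toFun := τ
  map_smul' := h.2.1
  map_zero' := by
    have := h.2.1 0 0
    rwa [zero_smul, zero_smul] at this
  map_add' := h.1
  map_mul' := h.2.2.1
  map_star' := h.2.2.2

theorem hom_norm {A B : Type} [NonUnitalCStarAlgebra A] [NonUnitalCStarAlgebra B] {τ : A → B} (h : Hom τ) (a : A) :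
    ‖τ a‖ ≤ ‖a‖ := NonUnitalStarAlgHom.norm_apply_le (homOf h) a

/-- the action -/
def actOf {G B : Type} [Group G] [TopologicalSpace G] [NonUnitalCStarAlgebra B] {β : G → B → B}
    (hβ : Action β) : Act G B where
  act := β
  one := hβ.2.1
  mul := hβ.2.2.1
  iso g a b := by
    have h1 : β g a - β g b = β g (a - b) := (map_sub (homOf (hβ.1 g)) a b).symm
    rw [h1]
    exact hom_norm (hβ.1 g) _
  zero g := map_zero (homOf (hβ.1 g))
  cont := hβ.2.2.2

theorem iter_skew {Y G B : Type} [TopologicalSpace Y] [Group G] [TopologicalSpace G] [NonUnitalCStarAlgebra B]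
    {β : G → B → B} (hβ : Action β)
    {S : Y → Y} {φ : Y → G} {α : C(Y, B) → C(Y, B)} (hα : ∀ F y, α F y = β (φ y)⁻¹ (F (S y))) (n : ℕ) :
    ∀ (F : C(Y, B)) (y : Y), (α^[n] F) y = β (product S φ n y)⁻¹ (F (S^[n] y)) := by
  induction n with
  | zero =>
    intro F y
    show F y = β (1 : G)⁻¹ (F y)
    rw [inv_one, hβ.2.1]
  | succ n ih =>
    intro F y
    rw [Function.iterate_succ_apply, ih (α F) y, hα, Function.iterate_succ_apply']
    show _ = β (φ (S^[n] y) * product S φ n y)⁻¹ (F (S (S^[n] y)))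
    rw [mul_inv_rev, hβ.2.2.1]

theorem ndis_skew {Y G B : Type} [TopologicalSpace Y] [CompactSpace Y] [T2Space Y] [Group G] [TopologicalSpace G]
    [IsTopologicalGroup G] [T2Space G] [NonUnitalCStarAlgebra B] {β : G → B → B} {S : Y → Y} {φ : Y → G}
    {α : C(Y, B) → C(Y, B)} (hβ : Action β) (hS : Continuous S) (hφ : Continuous φ)
    (hAP : AlmostPeriodic S) (hB : BoundedAlong S φ) (hα : ∀ F y, α F y = β (φ y)⁻¹ (F (S y))) {u : ℕ → ℤ} (hu : ∀ n, |u n| ≤ 1)
    {E : Set ℕ} (hE : LDZ E) (hk : Kf u E) (F : C(Y, B)) : NDis E u {fun n => α^[n] F} := by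
  have h1 : NDis E u {v : ℕ → B | ∃ y : Y, v = fun n => β (product S φ n y)⁻¹ (F (S^[n] y))} := by
    refine ndis_of (dis_act (actOf hβ) hu hE hk hS hφ (uap_of hAP) (bdd_of hB) F) ?_
    rintro _ ⟨y, rfl⟩ ρ hρ
    refine ⟨y, Set.mem_univ y, fun b => ρ b, lip_dual hρ, ?_⟩
    funext n
    simp only [product_eq]
    rfl
  intro ε hε
  obtain ⟨N₀, h2⟩ := h1 ε hε
  have hsum : ∀ (A : Finset ℕ) (a : ℕ → ℂ) (y : Y), (∑ n ∈ A, a n • α^[n] F) y =
      ∑ n ∈ A, a n • β (product S φ n y)⁻¹ (F (S^[n] y)) := by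
    intro A a y
    rw [ContinuousMap.sum_apply]
    refine sum_congr rfl fun n _ => ?_
    rw [ContinuousMap.smul_apply, iter_skew hβ hα]
  refine ⟨N₀, fun N hN v hv θ => ?_⟩
  obtain rfl : v = fun n => α^[n] F := hv
  refine ⟨fun hNE => ?_, ?_⟩
  · rw [ContinuousMap.norm_le _ (by positivity)]
    intro y
    rw [hsum]
    exact (h2 N hN _ ⟨y, rfl⟩ θ).1 hNE
  · rw [ContinuousMap.norm_le _ (mul_nonneg hε.le (Real.log_natCast_nonneg N))]
    intro y
    rw [hsum]
    exact (h2 N hN _ ⟨y, rfl⟩ θ).2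

theorem tw_tws (u : ℕ → ℤ) (t : ℝ) (m : ℕ) : tw u t m = tws u (t : UnitAddCircle) m := by
  rw [tw_eq, exp_fourier]
  rfl

theorem single_of {X : Type v} [NormedAddCommGroup X] [NormedSpace ℂ X] {E : Set ℕ} (hE : LDZ E) {f : ℕ → ℤ}
    (hf : ∀ n, |f n| ≤ 1) {y : ℕ → X} {M : ℝ} (hM : ∀ n, ‖y n‖ ≤ M)
    (hy : ∀ ε : ℝ, 0 < ε → ∃ N₀ : ℕ, ∀ N : ℕ, N₀ ≤ N → N ∉ E → ∀ θ : UnitAddCircle,
      ‖∑ m ∈ Icc 1 N, tws f θ m • y m‖ ≤ ε * N) : DisjointOutside E f {y} := by
  have hlong : ∀ ε : ℝ, 0 < ε → ∃ N0 : ℕ, ∀ N ≥ N0, N ∉ E → ∀ θ : ℝ,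
      ‖twistedSum f θ (Icc 1 N) y‖ ≤ ε * N := by
    intro ε hε
    obtain ⟨N₀, h1⟩ := hy ε hε
    refine ⟨N₀, fun N hN hNE θ => ?_⟩
    refine le_trans (le_of_eq ?_) (h1 N hN hNE (θ : UnitAddCircle))
    congr 1
    unfold twistedSum
    refine sum_congr rfl fun m _ => ?_
    rw [exp_fourier]
    rfl
  intro ε hε
  obtain ⟨N₁, h2⟩ := hlong ε hε
  obtain ⟨N₀, h3⟩ := logmean hE (M := M)
    (𝓕 := {a : ℕ → X | ∃ θ : ℝ, a = fun m => ((f m : ℂ) * Complex.exp (2 * Real.pi * Complex.I * m * θ)) • y m})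
    (by
      rintro _ ⟨θ, rfl⟩ n
      rw [norm_smul, exp_fourier]
      calc _ ≤ 1 * M := mul_le_mul (norm_tws hf (θ : UnitAddCircle) n) (hM n) (norm_nonneg _) zero_le_one
        _ = M := one_mul _)
    (by
      intro ε hε
      obtain ⟨N₀, h4⟩ := hlong ε hε
      refine ⟨N₀, ?_⟩
      rintro N hN hNE _ ⟨θ, rfl⟩
      exact h4 N hN hNE θ) ε hε
  refine ⟨N₀ + N₁, fun N hN v hv θ => ?_⟩
  obtain rfl : v = y := hv
  refine ⟨fun hNE => h2 N (by omega) hNE θ, ?_⟩
  refine le_trans (le_of_eq ?_) (h3 N (by omega) _ ⟨θ, rfl⟩)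
  unfold twistedSum
  congr 1
  exact sum_congr rfl fun m _ => smul_comm _ _ _

theorem pow_iter {A : Type} [CStarAlgebra A] (α : A →⋆ₐ[ℂ] A) (m : ℕ) (x : A) : (α ^ m) x = (⇑α)^[m] x := by
  induction m with
  | zero => rfl
  | succ m ih =>
    rw [Function.iterate_succ_apply', ← ih, pow_succ']
    rfl

theorem partB_of {Y B : Type} [TopologicalSpace Y] [CompactSpace Y] [NonUnitalCStarAlgebra B]
    {α : C(Y, B) → C(Y, B)} {u : ℕ → ℤ} (hu : ∀ n, |u n| ≤ 1) {E : Set ℕ} (hE : LDZ E)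
    (h : ∀ F : C(Y, B), NDis E u {fun n => α^[n] F}) {W : Type} [CStarAlgebra W] {γ' : W → W}
    {ι' : C(Y, B) → W} (hγ' : Hom γ') (hγ1 : γ' 1 = 1) (hι' : Hom ι') (hι : ∀ F, γ' (ι' F) = ι' (α F)) {x : W}
    (hx : x ∈ closure (Submodule.span ℂ {x : W | ∃ (c b : W) (F : C(Y, B)), Eigenvector γ' c ∧ Eigenvector γ' b ∧
      x = c * ι' F * b} : Set W)) : DisjointOutside E u {fun n => γ'^[n] x} := by
  obtain ⟨γ, hγ⟩ : ∃ γ : W →⋆ₐ[ℂ] W, (γ : W → W) = γ' := ⟨
    { toFun := γ'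
      map_one' := hγ1
      map_mul' := hγ'.2.2.1
      map_zero' := map_zero (homOf hγ')
      map_add' := hγ'.1
      commutes' := fun r => by
        rw [Algebra.algebraMap_eq_smul_one, hγ'.2.1, hγ1]
      map_star' := hγ'.2.2.2 }, rfl⟩
  obtain ⟨ι, hιι⟩ : ∃ ι : C(Y, B) →⋆ₙₐ[ℂ] W, (ι : C(Y, B) → W) = ι' := ⟨homOf hι', rfl⟩
  subst hγ
  subst hιι
  have hiter : ∀ (n : ℕ) (F : C(Y, B)), (γ ^ n) (ι F) = ι (α^[n] F) := by
    intro n
    induction n with
    | zero => intro F; rfl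
    | succ n ih =>
      intro F
      rw [Function.iterate_succ_apply', ← hι, ← ih, pow_succ']
      rfl
  have hgd : Gd γ E u x := by
    refine Gd.closure hu ?_ hx
    rintro _ ⟨c, b, F, hc, hb, rfl⟩
    refine gd_eig ?_ hc hb
    intro ε hε
    obtain ⟨N₀, h1⟩ := h F ε hε
    refine ⟨N₀, fun N hN hNE θ => ?_⟩
    obtain ⟨t, rfl⟩ := QuotientAddGroup.mk_surjective θ
    have h2 := (h1 N hN _ rfl t).1 hNE
    have e1 : ∑ m ∈ Icc 1 N, tws u (t : UnitAddCircle) m • (γ ^ m) (ι F) =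
        ι (∑ m ∈ Icc 1 N, tw u t m • α^[m] F) := by
      rw [map_sum]
      refine sum_congr rfl fun m _ => ?_
      rw [map_smul, hiter, tw_tws]
    refine le_trans (le_of_eq ?_) ((NonUnitalStarAlgHom.norm_apply_le ι _).trans h2)
    rw [← e1]
  refine single_of hE hu (M := ‖x‖) (fun n => ?_) (fun ε hε => ?_)
  · show ‖γ^[n] x‖ ≤ ‖x‖
    rw [← pow_iter]
    exact norm_pow_le' γ n x
  · obtain ⟨N₀, h1⟩ := hgd ε hε
    refine ⟨N₀, fun N hN hNE θ => le_trans (le_of_eq ?_) (h1 N hN hNE θ)⟩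
    congr 1
    exact sum_congr rfl fun m _ => by rw [pow_iter]

theorem partC_of {d : ℕ} {ξ : ℝ} {f : AddCircle (1 : ℝ) → Fin d → ℝ} {B : Type} [NonUnitalCStarAlgebra B]
    {β : Multiplicative (Fin d → ℝ) → B → B} (hβ : Action β) (hξ : Irrational ξ)
    (hf : ∀ i, BVMeanZero fun x => f x i) {u : ℕ → ℤ} (hu : ∀ n, |u n| ≤ 1) {E : Set ℕ} (hE : LDZ E) (hk : Kf u E)
    (F : C(AddCircle (1 : ℝ), B)) : NDis E u {v | ∃ y : AddCircle (1 : ℝ),
      v = fun n : ℕ => β (Multiplicative.ofAdd (walk ξ f y n)) (F (y + n • (ξ : AddCircle (1 : ℝ))))} := by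
  have hV : ∀ i, BoundedVariationOn (fun x : ℝ => (fun g : Multiplicative (Fin d → ℝ) => Multiplicative.toAdd g)
      (Multiplicative.ofAdd (-f (x : AddCircle (1 : ℝ)))) i) (Set.Icc 0 1) := by
    intro i
    have h1 := (hf i).1
    have h2 : (fun x : ℝ => (fun g : Multiplicative (Fin d → ℝ) => Multiplicative.toAdd g)
        (Multiplicative.ofAdd (-f (x : AddCircle (1 : ℝ)))) i) = fun x : ℝ => -(f (x : AddCircle (1 : ℝ)) i) := rfl
    rw [h2]
    refine ne_top_of_le_ne_top h1 (le_of_eq ?_)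
    unfold eVariationOn
    simp only [edist_neg_neg]
  have h0 : ∀ i, ∫ x in (0 : ℝ)..1, (fun g : Multiplicative (Fin d → ℝ) => Multiplicative.toAdd g)
      (Multiplicative.ofAdd (-f (x : AddCircle (1 : ℝ)))) i = 0 := by
    intro i
    have h1 := (hf i).2
    show ∫ x in (0 : ℝ)..1, -(f (x : AddCircle (1 : ℝ)) i) = 0
    rw [intervalIntegral.integral_neg, h1, neg_zero]
  refine ndis_of (dis_act_walk (actOf hβ) hu hE hk (coord_real d) hξ
    (fun y => Multiplicative.ofAdd (-f y)) hV h0 F) ?_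
  rintro _ ⟨y, rfl⟩ ρ hρ
  refine ⟨y, fun b => ρ b, lip_dual hρ, ?_⟩
  funext n
  rw [prods_walk]
  have e1 : (Multiplicative.ofAdd (Pool.Agent.U708.ST.walk ξ (fun y => -f y) y n))⁻¹ =
      Multiplicative.ofAdd (walk ξ f y n) := by
    rw [← ofAdd_neg]
    congr 1
    unfold Pool.Agent.U708.ST.walk walk
    rw [sum_neg_distrib, neg_neg]
  rw [e1]
  rfl

theorem partC2_of {d : ℕ} {ξ : ℝ} {f : AddCircle (1 : ℝ) → Fin d → ℝ} {B : Type} [NonUnitalCStarAlgebra B]
    {β : Multiplicative (Fin d → ℝ) → B → B} (hβ : Action β) {u : ℕ → ℤ} {E : Set ℕ}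
    {F : C(AddCircle (1 : ℝ), B)} (h : NDis E u {v | ∃ y : AddCircle (1 : ℝ),
      v = fun n : ℕ => β (Multiplicative.ofAdd (walk ξ f y n)) (F (y + n • (ξ : AddCircle (1 : ℝ))))})
    {α : C(AddCircle (1 : ℝ), B) → C(AddCircle (1 : ℝ), B)}
    (hα : ∀ F y, α F y = β (Multiplicative.ofAdd (f y)) (F (y + (ξ : AddCircle (1 : ℝ))))) :
    NDis E u {fun n => α^[n] F} := by
  have hw : ∀ (y : AddCircle (1 : ℝ)) (n : ℕ), walk ξ f y (n + 1) = walk ξ f y n + f (y + n • (ξ : AddCircle (1 : ℝ))) :=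
    fun y n => sum_range_succ _ _
  have hiter : ∀ (n : ℕ) (F : C(AddCircle (1 : ℝ), B)) (y : AddCircle (1 : ℝ)), (α^[n] F) y =
      β (Multiplicative.ofAdd (walk ξ f y n)) (F (y + n • (ξ : AddCircle (1 : ℝ)))) := by
    intro n
    induction n with
    | zero =>
      intro F y
      have h1 : walk ξ f y 0 = 0 := rfl
      rw [h1, ofAdd_zero, hβ.2.1, zero_smul, add_zero]
      rfl
    | succ n ih =>
      intro F y
      rw [Function.iterate_succ_apply, ih (α F) y, hα, hw, ofAdd_add, hβ.2.2.1, succ_nsmul, ← add_assoc]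
  have hsum : ∀ (A : Finset ℕ) (a : ℕ → ℂ) (y : AddCircle (1 : ℝ)), (∑ n ∈ A, a n • α^[n] F) y =
      ∑ n ∈ A, a n • β (Multiplicative.ofAdd (walk ξ f y n)) (F (y + n • (ξ : AddCircle (1 : ℝ)))) := by
    intro A a y
    rw [ContinuousMap.sum_apply]
    refine sum_congr rfl fun n _ => ?_
    rw [ContinuousMap.smul_apply, hiter]
  intro ε hε
  obtain ⟨N₀, h2⟩ := h ε hε
  refine ⟨N₀, fun N hN v hv θ => ?_⟩
  obtain rfl : v = fun n => α^[n] F := hv
  refine ⟨fun hNE => ?_, ?_⟩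
  · rw [ContinuousMap.norm_le _ (by positivity)]
    intro y
    rw [hsum]
    exact (h2 N hN _ ⟨y, rfl⟩ θ).1 hNE
  · rw [ContinuousMap.norm_le _ (mul_nonneg hε.le (Real.log_natCast_nonneg N))]
    intro y
    rw [hsum]
    exact (h2 N hN _ ⟨y, rfl⟩ θ).2

theorem partD_of {d : ℕ} {ξ : ℝ} {f : AddCircle (1 : ℝ) → Fin d → ℤ} (hξ : Irrational ξ)
    (hf : ∀ i, BVMeanZero fun x => (f x i : ℝ)) {X : Type v} [NormedAddCommGroup X] [NormedSpace ℂ X]
    {u : ℕ → ℤ} (hu : ∀ n, |u n| ≤ 1) {E : Set ℕ} (hE : LDZ E) (hk : Kf u E) :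
    NDis E u {v : ℕ → X | ∃ (y : AddCircle (1 : ℝ)) (V : (Fin d → ℤ) → X), (∀ k, ‖V k‖ ≤ 1) ∧
      v = fun n : ℕ => V (walk ξ f y n)} := by
  refine ndis_of (dis_int hu hE hk hξ f (fun i => (hf i).1) (fun i => (hf i).2)) ?_
  rintro _ ⟨y, V, hV, rfl⟩ ρ hρ
  exact ⟨y, fun k => ρ (V k), fun k => ((lip_dual hρ).1 (V k)).trans (hV k), rfl⟩

/-- **Möbius disjointness in norm for skew product automorphisms and for walks in C*-dynamical systems.** There is one
set `E` of logarithmic density zero such that (A), (B), (C) and (D) hold. -/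
theorem result : ∃ E : Set ℕ, LogDensityZero E ∧ PartAB E ∧ PartC E ∧ PartC' E ∧ PartD.{v} E := by
  obtain ⟨E₁, hE₁, h1⟩ := Pool.Agent.Y842.PH.one_E (Pool.Agent.Y304.U.avc Pool.Agent.Y304.U.pw)
    Pool.Agent.TH823.MRS.mob Pool.Agent.TH823.MRS.mob_bdd Pool.Agent.TH823.MRS.mob_flip
    Pool.Agent.TH823.MRS.expo_mob
  obtain ⟨E₂, hE₂, h2⟩ := Pool.Agent.Y842.PH.one_E (Pool.Agent.Y304.U.avc Pool.Agent.Y304.U.pw)
    Pool.Agent.H376R2.MR.lam Pool.Agent.Y842.EL.abs_lam Pool.Agent.TH823.MRS.lam_flip Pool.Agent.TH823.MRS.expo_lam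
  have hE : LogDensityZero (E₁ ∪ E₂) := Pool.Agent.Y842.EL.LZ_union hE₁ hE₂
  have hmu : ∀ n, |mu n| ≤ 1 := fun n => ArithmeticFunction.abs_moebius_le_one
  have hlam : ∀ n, |lam n| ≤ 1 := fun n => by
    unfold lam
    rw [abs_pow, abs_neg, abs_one, one_pow]
  have s1 : Kf mu (E₁ ∪ E₂) := kf_of h1 Set.subset_union_left
  have s2 : Kf lam (E₁ ∪ E₂) := kf_of h2 Set.subset_union_right
  refine ⟨E₁ ∪ E₂, hE, ?_, ?_, ?_, ?_⟩
  · intro Y G B _ _ _ _ _ _ _ _ β S φ α ⟨hβ, hS, hφ, hAP, hB, hα⟩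
    refine ⟨fun F => ⟨disj_of (ndis_skew hβ hS hφ hAP hB hα hmu hE s1 F),
      disj_of (ndis_skew hβ hS hφ hAP hB hα hlam hE s2 F)⟩, fun W _ γ ι hγ hγ1 hι1 hι x hx => ?_⟩
    exact ⟨partB_of hmu hE (fun F => ndis_skew hβ hS hφ hAP hB hα hmu hE s1 F) hγ hγ1 hι1 hι hx,
      partB_of hlam hE (fun F => ndis_skew hβ hS hφ hAP hB hα hlam hE s2 F) hγ hγ1 hι1 hι hx⟩
  · intro d ξ f B _ β hβ hξ hf F
    exact ⟨disj_of (partC_of hβ hξ hf hmu hE s1 F), disj_of (partC_of hβ hξ hf hlam hE s2 F)⟩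
  · intro d ξ f B _ β hβ hξ hf α hα F
    exact ⟨disj_of (partC2_of hβ (partC_of hβ hξ hf hmu hE s1 F) hα),
      disj_of (partC2_of hβ (partC_of hβ hξ hf hlam hE s2 F) hα)⟩
  · intro d ξ f hξ hf X _ _
    exact ⟨disj_of (partD_of hξ hf hmu hE s1), disj_of (partD_of hξ hf hlam hE s2)⟩

end Pool.Agent.Results.MP_7a8f48_an.SkewProducts
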